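import Mathlib
import Pool.Agent.H469R2.NK.KL

/-!
# Cubic averages in rigid uniquely ergodic systems (MP_e4c747_an): definitions and statements

`StW` is a mean square bound for Weyl sums, `StKL` the same for a short range of lengths where the
modulus has a very good rational approximation, `StF` the Fourier lemma.
Proofs: see `notes.md` in this folder.
-/

set_option autoImplicit false

namespace Pool.Agent.R286.CU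

open Finset

/-- the additive character `e(x) = exp(2πix)` -/
noncomputable abbrev e : ℝ → ℂ := Pool.Agent.H469R2.NK.e

/-- `S h κ P a b K = ∑_{k<K} e(h (κ k³ / P + a k² + b k))` -/
noncomputable def S (h κ P : ℕ) (a b : ℝ) (K : ℕ) : ℂ :=
  ∑ k ∈ range K, e ((h : ℝ) * ((κ : ℝ) * (k : ℝ) ^ 3 / (P : ℝ) + a * (k : ℝ) ^ 2 + b * (k : ℝ)))

/-- the number of frequencies, `⌈M P^{1/5}⌉` -/
noncomputable def HH (M P : ℕ) : ℕ := ⌈(M : ℝ) * (P : ℝ) ^ (1 / 5 : ℝ)⌉₊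

/-- Part W (Weyl differencing twice and the divisor bound). -/
def StW : Prop := ∀ (M : ℕ) (ε : ℝ), 0 < ε → ∃ Q0 : ℕ, ∀ Q : ℕ, Q0 ≤ Q →
  ∀ κ : ℕ, Nat.Coprime κ Q → ∀ K : ℕ, (Q : ℝ) ^ (41 / 100 : ℝ) ≤ (K : ℝ) →
    (K : ℝ) ≤ (Q : ℝ) ^ (55 / 100 : ℝ) → ∀ a b : ℝ,
      ∑ h ∈ Icc 1 (HH M Q), ‖S h κ Q a b K‖ ^ 2 ≤ ε * (K : ℝ) ^ 2

/-- Part KL (Kusmin-Landau on progressions modulo the small number `q`). -/
def StKL : Prop := ∀ (M : ℕ) (ε : ℝ), 0 < ε → ∃ P0 : ℕ, ∀ P : ℕ, P0 ≤ P →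
  ∀ q κ : ℕ, 1 ≤ q → κ * q % P = 1 → (q : ℝ) ≤ 16 * (P : ℝ) ^ (1 / 25 : ℝ) →
    ∀ N : ℕ, (P : ℝ) ^ (2 / 5 : ℝ) ≤ 2 * (N : ℝ) → (N : ℝ) ≤ (P : ℝ) ^ (41 / 100 : ℝ) →
      ∑ h ∈ Icc 1 (HH M P), ‖S h κ P 0 0 N‖ ^ 2 ≤ ε * (N : ℝ) ^ 2

/-- Part F (finite Fourier analysis with the Fejér kernel): a function on `ℤ/Q` which is almost
constant on windows of length `R`, summed over the points `t k`. -/
def StF : Prop := ∀ (Q H R : ℕ), 1 ≤ H → 2 * H ≤ Q → 1 ≤ R → ∀ (G : ℤ → ℝ) (η : ℝ),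
  (∀ t, |G t| ≤ 1) → (∀ t, G (t + Q) = G t) → (∀ t u : ℤ, |u| ≤ R → |G (t + u) - G t| ≤ η) →
    ∀ (K : ℕ) (t : ℕ → ℤ),
      |∑ k ∈ range K, G (t k)| ≤
        (K : ℝ) * (η + (Q : ℝ) / ((H : ℝ) * R) + |∑ s ∈ range Q, G s| / (Q : ℝ)) +
          Real.sqrt (2 * ∑ h ∈ Icc 1 H, ‖∑ k ∈ range K, e ((h : ℝ) * ((t k : ℤ) : ℝ) / (Q : ℝ))‖ ^ 2)

end Pool.Agent.R286.CU
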