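import Mathlib
import Pool.Agent.R286.CU.Stm

set_option autoImplicit false

namespace Pool.Agent.R286.CU

open Finset

variable {X : Type*}

lemma zpow_apply_add (τ : Equiv.Perm X) (a b : ℤ) (x : X) : (τ ^ (a + b)) x = (τ ^ a) ((τ ^ b) x) := by
  rw [zpow_add, Equiv.Perm.mul_apply]

/-- The level lemma: sums over points `m k` are controlled by exponential sums. -/
lemma level (hF : StF) (τ : Equiv.Perm X) (f : X → ℝ) (hf1 : ∀ x, |f x| ≤ 1)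
    (Qm Q Qp : ℕ) (hQ : 2 ≤ Q) (hmQ : Qm ≤ Q) (hQp : Q ≤ Qp) (κ : ℕ) (hκ : κ * Qm % Q = 1) (δ : ℝ)
    (h1 : ∀ t : ℤ, (|t| : ℝ) < (Q : ℝ) ^ (4 / 5 : ℝ) → ∀ x, |f ((τ ^ (t * Qm)) x) - f x| ≤ δ)
    (h2 : ∀ t : ℤ, (|t| : ℝ) < (Qp : ℝ) ^ (4 / 5 : ℝ) → ∀ x, |f ((τ ^ (t * Q)) x) - f x| ≤ δ)
    (hu : ∀ x, |∑ s ∈ range Q, f ((τ ^ (s : ℤ)) x)| ≤ δ * Q)
    (H R : ℕ) (hH : 1 ≤ H) (hH2 : 2 * H ≤ Q) (hR : 1 ≤ R) (hR2 : 2 * (R : ℝ) ≤ (Q : ℝ) ^ (4 / 5 : ℝ))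
    (K : ℕ) (m : ℕ → ℕ) (hm : ∀ k < K, (m k : ℝ) < (Q : ℝ) * (Qp : ℝ) ^ (4 / 5 : ℝ)) (z : X) :
    |∑ k ∈ range K, f ((τ ^ (m k : ℤ)) z)| ≤
      (K : ℝ) * (4 * δ + (Q : ℝ) / ((H : ℝ) * R)) +
        Real.sqrt (2 * ∑ h ∈ Icc 1 H, ‖∑ k ∈ range K,
          e ((h : ℝ) * ((κ : ℝ) * (m k : ℝ)) / (Q : ℝ))‖ ^ 2) := by
  classical
  have hQ0 : (0 : ℤ) < Q := by exact_mod_cast (by omega : 0 < Q)
  have hQ0' : (Q : ℤ) ≠ 0 := hQ0.ne'
  have hQr : (0 : ℝ) < Q := by exact_mod_cast (by omega : 0 < Q)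
  set ρ : ℤ → ℤ := fun t => (t * Qm) % Q with hρ
  have hρ0 : ∀ t, 0 ≤ ρ t := fun t => Int.emod_nonneg _ hQ0'
  have hρ1 : ∀ t, ρ t < Q := fun t => Int.emod_lt_of_pos _ hQ0
  set G : ℤ → ℝ := fun t => f ((τ ^ (ρ t)) z) with hG
  have hG1 : ∀ t, |G t| ≤ 1 := fun t => hf1 _
  have hGp : ∀ t, G (t + Q) = G t := by
    intro t
    have : ρ (t + Q) = ρ t := by
      simp only [hρ]
      rw [add_mul, mul_comm (Q : ℤ) (Qm : ℤ), Int.add_mul_emod_self_right]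
    simp only [hG, this]
  have hpow : (Q : ℝ) ^ (4 / 5 : ℝ) ≤ (Qp : ℝ) ^ (4 / 5 : ℝ) := by
    apply Real.rpow_le_rpow hQr.le (by exact_mod_cast hQp) (by norm_num)
  have hRpos : (0 : ℝ) < R := by exact_mod_cast hR
  -- almost constant
  have hGc : ∀ t u : ℤ, |u| ≤ R → |G (t + u) - G t| ≤ 2 * δ := by
    intro t u hu'
    -- ρ (t+u) = ρ t + u Qm - v Q
    obtain ⟨v, hv⟩ : ∃ v : ℤ, ρ (t + u) = v * Q + (u * Qm + ρ t) := by
      refine ⟨(t * Qm) / Q - ((t + u) * Qm) / Q, ?_⟩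
      have e1 := Int.emod_add_mul_ediv ((t + u) * Qm) Q
      have e2 := Int.emod_add_mul_ediv (t * Qm) Q
      simp only [hρ]
      linarith
    have hvu : |v| ≤ |u| := by
      have h3 : |v| * Q < (1 + |u|) * Q := by
        have h4 : v * Q = ρ (t + u) - ρ t - u * Qm := by linarith
        have h5 : |v| * Q = |ρ (t + u) - ρ t - u * Qm| := by
          rw [← h4, abs_mul, abs_of_pos hQ0]
        rw [h5]
        have h6 : |ρ (t + u) - ρ t| < Q := by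
          rw [abs_lt]
          constructor <;> linarith [hρ0 (t + u), hρ1 (t + u), hρ0 t, hρ1 t]
        have h7 : |u * Qm| ≤ |u| * Q := by
          rw [abs_mul]
          have : |(Qm : ℤ)| ≤ Q := by
            rw [abs_of_nonneg (by positivity)]
            exact_mod_cast hmQ
          exact mul_le_mul_of_nonneg_left this (abs_nonneg _)
        calc |ρ (t + u) - ρ t - u * Qm| ≤ |ρ (t + u) - ρ t| + |u * Qm| := abs_sub _ _
          _ < Q + |u| * Q := by linarith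
          _ = (1 + |u|) * Q := by ring
      have h8 : |v| < 1 + |u| := lt_of_mul_lt_mul_right h3 hQ0.le
      omega
    have huR : ((|u| : ℤ) : ℝ) ≤ R := by exact_mod_cast hu'
    have hu4 : (|u| : ℝ) < (Q : ℝ) ^ (4 / 5 : ℝ) := by
      have : ((|u| : ℤ) : ℝ) = |(u : ℝ)| := by push_cast; rfl
      rw [← this]
      linarith
    have hv4 : (|v| : ℝ) < (Qp : ℝ) ^ (4 / 5 : ℝ) := by
      have e1 : ((|v| : ℤ) : ℝ) = |(v : ℝ)| := by push_cast; rfl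
      have e2 : ((|v| : ℤ) : ℝ) ≤ ((|u| : ℤ) : ℝ) := by exact_mod_cast hvu
      rw [← e1]
      linarith
    simp only [hG]
    rw [hv, zpow_apply_add, zpow_apply_add]
    have a1 := h2 v hv4 ((τ ^ (u * (Qm : ℤ))) ((τ ^ (ρ t)) z))
    have a2 := h1 u hu4 ((τ ^ (ρ t)) z)
    calc |f ((τ ^ (v * (Q : ℤ))) ((τ ^ (u * (Qm : ℤ))) ((τ ^ (ρ t)) z))) - f ((τ ^ (ρ t)) z)|
        ≤ |f ((τ ^ (v * (Q : ℤ))) ((τ ^ (u * (Qm : ℤ))) ((τ ^ (ρ t)) z))) -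
            f ((τ ^ (u * (Qm : ℤ))) ((τ ^ (ρ t)) z))| +
          |f ((τ ^ (u * (Qm : ℤ))) ((τ ^ (ρ t)) z)) - f ((τ ^ (ρ t)) z)| := abs_sub_le _ _ _
      _ ≤ 2 * δ := by linarith
  -- the residue of κ Qm
  have hκ' : ((κ : ℤ) * Qm) % Q = 1 := by exact_mod_cast hκ
  -- points
  have hpt : ∀ k < K, |f ((τ ^ (m k : ℤ)) z) - G ((κ : ℤ) * m k)| ≤ δ := by
    intro k hk
    have hr : ρ ((κ : ℤ) * m k) = (m k : ℤ) % Q := by
      simp only [hρ]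
      have : (κ : ℤ) * m k * Qm = (κ * Qm) * m k := by ring
      rw [this, Int.mul_emod, hκ', one_mul, Int.emod_emod_of_dvd _ (dvd_refl _)]
    have hsplit : (m k : ℤ) = ((m k : ℤ) / Q) * Q + (m k : ℤ) % Q := by
      rw [mul_comm]; exact (Int.mul_ediv_add_emod _ _).symm
    have hb : (|((m k : ℤ) / Q : ℤ)| : ℝ) < (Qp : ℝ) ^ (4 / 5 : ℝ) := by
      have h3 : (0 : ℤ) ≤ (m k : ℤ) / Q := Int.ediv_nonneg (by positivity) hQ0.le
      have h4 : (((m k : ℤ) / Q : ℤ) : ℝ) * Q ≤ m k := by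
        have : ((m k : ℤ) / Q) * Q ≤ m k := Int.ediv_mul_le _ hQ0'
        exact_mod_cast this
      have h5 := hm k hk
      rw [abs_of_nonneg (by exact_mod_cast h3)]
      have h6 : (((m k : ℤ) / Q : ℤ) : ℝ) * Q < (Qp : ℝ) ^ (4 / 5 : ℝ) * Q := by linarith
      exact lt_of_mul_lt_mul_right h6 hQr.le
    have h7 := h2 ((m k : ℤ) / Q) hb ((τ ^ ((m k : ℤ) % Q)) z)
    rw [← zpow_apply_add, ← hsplit] at h7
    simp only [hG, hr]
    exact h7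
  -- mean of G
  have hmean : |∑ s ∈ range Q, G s| ≤ δ * Q := by
    have : ∑ s ∈ range Q, G s = ∑ s ∈ range Q, f ((τ ^ (s : ℤ)) z) := by
      refine Finset.sum_nbij' (fun s => s * Qm % Q) (fun r => r * κ % Q) ?_ ?_ ?_ ?_ ?_
      · intro s _
        exact Finset.mem_range.2 (Nat.mod_lt _ (by omega))
      · intro s _
        exact Finset.mem_range.2 (Nat.mod_lt _ (by omega))
      · intro s hs
        have hs' := Finset.mem_range.1 hs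
        show s * Qm % Q * κ % Q = s
        rw [Nat.mod_mul_mod]
        have : s * Qm * κ = (κ * Qm) * s := by ring
        rw [this, Nat.mul_mod, hκ, one_mul, Nat.mod_mod, Nat.mod_eq_of_lt hs']
      · intro s hs
        have hs' := Finset.mem_range.1 hs
        show s * κ % Q * Qm % Q = s
        rw [Nat.mod_mul_mod]
        have : s * κ * Qm = (κ * Qm) * s := by ring
        rw [this, Nat.mul_mod, hκ, one_mul, Nat.mod_mod, Nat.mod_eq_of_lt hs']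
      · intro s _
        simp only [hG, hρ]
        push_cast
        rfl
    rw [this]
    exact hu z
  have hmain := hF Q H R hH hH2 hR G (2 * δ) hG1 hGp hGc K (fun k => (κ : ℤ) * m k)
  have hsum : |∑ k ∈ range K, f ((τ ^ (m k : ℤ)) z)| ≤
      |∑ k ∈ range K, G ((κ : ℤ) * m k)| + K * δ := by
    have h3 : |∑ k ∈ range K, f ((τ ^ (m k : ℤ)) z) - ∑ k ∈ range K, G ((κ : ℤ) * m k)| ≤ K * δ := by
      rw [← Finset.sum_sub_distrib]
      refine (Finset.abs_sum_le_sum_abs _ _).trans ?_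
      refine (Finset.sum_le_sum (fun k hk => hpt k (Finset.mem_range.1 hk))).trans ?_
      rw [Finset.sum_const, Finset.card_range, nsmul_eq_mul]
    have h4 := abs_sub_abs_le_abs_sub (∑ k ∈ range K, f ((τ ^ (m k : ℤ)) z)) (∑ k ∈ range K, G ((κ : ℤ) * m k))
    linarith
  have hmean' : |∑ s ∈ range Q, G s| / (Q : ℝ) ≤ δ := by
    rw [div_le_iff₀ hQr]; exact hmean
  have hK0 : (0 : ℝ) ≤ K := by positivity
  have e1 : ∀ h : ℕ, (∑ k ∈ range K, e ((h : ℝ) * (((κ : ℤ) * m k : ℤ) : ℝ) / (Q : ℝ))) =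
      ∑ k ∈ range K, e ((h : ℝ) * ((κ : ℝ) * (m k : ℝ)) / (Q : ℝ)) := by
    intro h
    apply Finset.sum_congr rfl
    intro k _
    push_cast
    rfl
  simp only [e1] at hmain
  have h5 : (K : ℝ) * (2 * δ + (Q : ℝ) / ((H : ℝ) * R) + |∑ s ∈ range Q, G s| / (Q : ℝ)) ≤
      K * (3 * δ + (Q : ℝ) / ((H : ℝ) * R)) := by
    apply mul_le_mul_of_nonneg_left _ hK0
    linarith
  calc |∑ k ∈ range K, f ((τ ^ (m k : ℤ)) z)| ≤ |∑ k ∈ range K, G ((κ : ℤ) * m k)| + K * δ := hsum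
    _ ≤ (K * (3 * δ + (Q : ℝ) / ((H : ℝ) * R)) + Real.sqrt (2 * ∑ h ∈ Icc 1 H, ‖∑ k ∈ range K,
          e ((h : ℝ) * ((κ : ℝ) * (m k : ℝ)) / (Q : ℝ))‖ ^ 2)) + K * δ := by linarith
    _ = _ := by ring

end Pool.Agent.R286.CU
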