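import Mathlib
import Pool.Agent.R286.CU.Stm
import Pool.Agent.R286.CU.D1

set_option autoImplicit false

namespace Pool.Agent.R286.CU

open Finset Filter

variable {X : Type*}

lemma eventually_params (ε : ℝ) (hε : 0 < ε) : ∃ M : ℕ, ∃ Q1 : ℕ, ∀ Q : ℕ, Q1 ≤ Q →
    ∃ R : ℕ, 2 ≤ Q ∧ 1 ≤ HH M Q ∧ 2 * HH M Q ≤ Q ∧ 1 ≤ R ∧ 2 * (R : ℝ) ≤ (Q : ℝ) ^ (4 / 5 : ℝ) ∧
      (Q : ℝ) / ((HH M Q : ℝ) * R) ≤ ε / 4 := by
  obtain ⟨M, hM⟩ := exists_nat_ge (16 / ε)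
  have hMpos : (0 : ℝ) < M := lt_of_lt_of_le (by positivity) hM
  refine ⟨M, ?_⟩
  have h1 : ∀ᶠ x : ℝ in atTop, 4 ≤ x ^ (4 / 5 : ℝ) :=
    (tendsto_rpow_atTop (by norm_num : (0 : ℝ) < 4 / 5)).eventually_ge_atTop 4
  have h2 : ∀ᶠ x : ℝ in atTop, 2 * (M : ℝ) * 2 ≤ x ^ (4 / 5 : ℝ) :=
    (tendsto_rpow_atTop (by norm_num : (0 : ℝ) < 4 / 5)).eventually_ge_atTop _
  have h3 : ∀ᶠ x : ℝ in atTop, (4 : ℝ) ≤ x := eventually_ge_atTop 4
  obtain ⟨x0, hx0⟩ := Filter.eventually_atTop.1 (h1.and (h2.and h3))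
  obtain ⟨Q1, hQ1⟩ := exists_nat_ge x0
  refine ⟨Q1, fun Q hQ => ?_⟩
  obtain ⟨a1, a2, a3⟩ := hx0 (Q : ℝ) (hQ1.trans (by exact_mod_cast hQ))
  have hQpos : (0 : ℝ) < Q := by linarith
  refine ⟨⌊(Q : ℝ) ^ (4 / 5 : ℝ) / 2⌋₊, ?_, ?_, ?_, ?_, ?_, ?_⟩
  · have : (2 : ℝ) ≤ Q := by linarith
    exact_mod_cast this
  · unfold HH
    apply Nat.ceil_pos.2
    positivity
  · unfold HH
    have hc := Nat.ceil_lt_add_one (a := (M : ℝ) * (Q : ℝ) ^ (1 / 5 : ℝ)) (by positivity)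
    have hs : (Q : ℝ) = (Q : ℝ) ^ (1 / 5 : ℝ) * (Q : ℝ) ^ (4 / 5 : ℝ) := by
      rw [← Real.rpow_add hQpos]; norm_num
    have h5 : 0 < (Q : ℝ) ^ (1 / 5 : ℝ) := by positivity
    have h6 : 4 * ((M : ℝ) * (Q : ℝ) ^ (1 / 5 : ℝ)) ≤ Q := by
      calc 4 * ((M : ℝ) * (Q : ℝ) ^ (1 / 5 : ℝ)) = (Q : ℝ) ^ (1 / 5 : ℝ) * (2 * (M : ℝ) * 2) := by ring
        _ ≤ (Q : ℝ) ^ (1 / 5 : ℝ) * (Q : ℝ) ^ (4 / 5 : ℝ) := mul_le_mul_of_nonneg_left a2 h5.le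
        _ = Q := hs.symm
    have h7 : (2 : ℝ) * (⌈(M : ℝ) * (Q : ℝ) ^ (1 / 5 : ℝ)⌉₊ : ℝ) ≤ Q := by linarith
    exact_mod_cast h7
  · apply Nat.floor_pos.2
    linarith
  · have := Nat.floor_le (a := (Q : ℝ) ^ (4 / 5 : ℝ) / 2) (by positivity)
    linarith
  · have hR : (Q : ℝ) ^ (4 / 5 : ℝ) / 4 ≤ (⌊(Q : ℝ) ^ (4 / 5 : ℝ) / 2⌋₊ : ℝ) := by
      have := Nat.lt_floor_add_one ((Q : ℝ) ^ (4 / 5 : ℝ) / 2)
      linarith
    have hH : (M : ℝ) * (Q : ℝ) ^ (1 / 5 : ℝ) ≤ (HH M Q : ℝ) := Nat.le_ceil _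
    have hs : (Q : ℝ) = (Q : ℝ) ^ (1 / 5 : ℝ) * (Q : ℝ) ^ (4 / 5 : ℝ) := by
      rw [← Real.rpow_add hQpos]; norm_num
    have h5 : 0 < (Q : ℝ) ^ (1 / 5 : ℝ) := by positivity
    have h6 : 0 < (Q : ℝ) ^ (4 / 5 : ℝ) := by positivity
    have hprod : (M : ℝ) * Q / 4 ≤ (HH M Q : ℝ) * (⌊(Q : ℝ) ^ (4 / 5 : ℝ) / 2⌋₊ : ℝ) := by
      calc (M : ℝ) * Q / 4 = ((M : ℝ) * (Q : ℝ) ^ (1 / 5 : ℝ)) * ((Q : ℝ) ^ (4 / 5 : ℝ) / 4) := by
            conv_lhs => rw [hs]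
            ring
        _ ≤ (HH M Q : ℝ) * (⌊(Q : ℝ) ^ (4 / 5 : ℝ) / 2⌋₊ : ℝ) :=
            mul_le_mul hH hR (by positivity) (by positivity)
    have hpos : 0 < (M : ℝ) * Q / 4 := by positivity
    rw [div_le_iff₀ (lt_of_lt_of_le hpos hprod)]
    have h8 : 16 ≤ M * ε := by
      rw [div_le_iff₀ hε] at hM
      exact hM
    calc (Q : ℝ) = Q * 1 := by ring
      _ ≤ Q * (M * ε / 16) := by
          apply mul_le_mul_of_nonneg_left _ hQpos.le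
          linarith
      _ = ε / 4 * (M * Q / 4) := by ring
      _ ≤ ε / 4 * ((HH M Q : ℝ) * (⌊(Q : ℝ) ^ (4 / 5 : ℝ) / 2⌋₊ : ℝ)) :=
          mul_le_mul_of_nonneg_left hprod (by positivity)

/-- the hypotheses on the system used below -/
structure Sys (τ : Equiv.Perm X) (f : X → ℝ) (q : ℕ → ℕ) : Prop where
  hf1 : ∀ x, |f x| ≤ 1
  hq : StrictMono q
  hcop : ∀ n, Nat.Coprime (q n) (q (n + 1))
  hr : ∀ δ : ℝ, 0 < δ → ∃ n0, ∀ n ≥ n0, ∀ t : ℤ, (|t| : ℝ) < (q (n + 1) : ℝ) ^ (4 / 5 : ℝ) →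
    ∀ x, |f ((τ ^ (t * q n)) x) - f x| ≤ δ
  hu : ∀ δ : ℝ, 0 < δ → ∃ L0 : ℕ, ∀ L : ℕ, L0 ≤ L → ∀ x, |∑ s ∈ range L, f ((τ ^ (s : ℤ)) x)| ≤ δ * L

lemma level2 (hF : StF) {τ : Equiv.Perm X} {f : X → ℝ} {q : ℕ → ℕ} (hs : Sys τ f q)
    (ε : ℝ) (hε : 0 < ε) : ∃ M : ℕ, ∃ n1 : ℕ, ∀ n, n1 ≤ n → ∀ κ : ℕ, κ * q n % q (n + 1) = 1 →
      ∀ (K : ℕ) (m : ℕ → ℕ), (∀ k < K, (m k : ℝ) < (q (n + 1) : ℝ) * (q (n + 2) : ℝ) ^ (4 / 5 : ℝ)) →
        ∑ h ∈ Icc 1 (HH M (q (n + 1))), ‖∑ k ∈ range K,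
          e ((h : ℝ) * ((κ : ℝ) * (m k : ℝ)) / (q (n + 1) : ℝ))‖ ^ 2 ≤ ε ^ 2 / 8 * (K : ℝ) ^ 2 →
          ∀ z, |∑ k ∈ range K, f ((τ ^ (m k : ℤ)) z)| ≤ ε * K := by
  obtain ⟨M, Q1, hQ1⟩ := eventually_params ε hε
  obtain ⟨n2, hn2⟩ := hs.hr (ε / 16) (by positivity)
  obtain ⟨L0, hL0⟩ := hs.hu (ε / 16) (by positivity)
  refine ⟨M, max n2 (max Q1 L0), fun n hn κ hκ K m hm hsum z => ?_⟩
  have hn2' : n2 ≤ n := le_trans (le_max_left _ _) hn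
  have hnQ : Q1 ≤ n := le_trans (le_trans (le_max_left _ _) (le_max_right _ _)) hn
  have hnL : L0 ≤ n := le_trans (le_trans (le_max_right _ _) (le_max_right _ _)) hn
  have hid : n + 1 ≤ q (n + 1) := hs.hq.le_apply
  obtain ⟨R, hQ2, hH, hH2, hR, hR2, hHR⟩ := hQ1 (q (n + 1)) (by omega)
  have hlev := level hF τ f hs.hf1 (q n) (q (n + 1)) (q (n + 2)) hQ2
    (hs.hq.monotone (by omega)) (hs.hq.monotone (by omega)) κ hκ (ε / 16)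
    (fun t ht x => hn2 n hn2' t ht x)
    (fun t ht x => hn2 (n + 1) (by omega) t ht x)
    (fun x => hL0 (q (n + 1)) (by omega) x) (HH M (q (n + 1))) R hH hH2 hR hR2 K m hm z
  have hK : (0 : ℝ) ≤ K := by positivity
  have hsq : Real.sqrt (2 * ∑ h ∈ Icc 1 (HH M (q (n + 1))), ‖∑ k ∈ range K,
          e ((h : ℝ) * ((κ : ℝ) * (m k : ℝ)) / (q (n + 1) : ℝ))‖ ^ 2) ≤ ε / 2 * K := by
    apply Real.sqrt_le_iff.2
    refine ⟨by positivity, ?_⟩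
    nlinarith [hsum]
  have h3 : (K : ℝ) * (4 * (ε / 16) + (q (n + 1) : ℝ) / ((HH M (q (n + 1)) : ℝ) * R)) ≤
      K * (ε / 2) := by
    apply mul_le_mul_of_nonneg_left _ hK
    linarith
  linarith

lemma coprime_of_mul_mod {κ a Q : ℕ} (h : κ * a % Q = 1) : Nat.Coprime κ Q := by
  have h1 : Nat.gcd (κ * a) Q = 1 := by
    rw [Nat.gcd_comm, Nat.gcd_rec, h, Nat.gcd_one_left]
  exact Nat.Coprime.coprime_mul_right h1

/-- Step A: short sums at one level. -/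
lemma stepA (hW : StW) (hF : StF) {τ : Equiv.Perm X} {f : X → ℝ} {q : ℕ → ℕ} (hs : Sys τ f q)
    (ε : ℝ) (hε : 0 < ε) : ∃ n1 : ℕ, ∀ n, n1 ≤ n → ∀ K : ℕ,
      (q (n + 1) : ℝ) ^ (41 / 100 : ℝ) ≤ K → (K : ℝ) ≤ (q (n + 1) : ℝ) ^ (55 / 100 : ℝ) →
      ∀ i0 : ℕ, (∀ k < K, ((k ^ 3 + 3 * i0 * k ^ 2 + 3 * i0 ^ 2 * k : ℕ) : ℝ) <
        (q (n + 1) : ℝ) * (q (n + 2) : ℝ) ^ (4 / 5 : ℝ)) →
      ∀ z, |∑ k ∈ range K, f ((τ ^ ((k ^ 3 + 3 * i0 * k ^ 2 + 3 * i0 ^ 2 * k : ℕ) : ℤ)) z)| ≤ ε * K := by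
  obtain ⟨M, n1, hn1⟩ := level2 hF hs ε hε
  obtain ⟨Q0, hQ0⟩ := hW M (ε ^ 2 / 8) (by positivity)
  refine ⟨max n1 (max Q0 1), fun n hn K hK1 hK2 i0 hm z => ?_⟩
  have hn1' : n1 ≤ n := le_trans (le_max_left _ _) hn
  have hnQ : Q0 ≤ n := le_trans (le_trans (le_max_left _ _) (le_max_right _ _)) hn
  have hn3 : 1 ≤ n := le_trans (le_trans (le_max_right _ _) (le_max_right _ _)) hn
  have hid : n + 1 ≤ q (n + 1) := hs.hq.le_apply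
  obtain ⟨κ, hκ⟩ := Nat.exists_mul_mod_eq_one_of_coprime (hs.hcop n) (by omega : 1 < q (n + 1))
  have hκ' : κ * q n % q (n + 1) = 1 := by rw [mul_comm]; exact hκ.2
  refine hn1 n hn1' κ hκ' K (fun k => k ^ 3 + 3 * i0 * k ^ 2 + 3 * i0 ^ 2 * k) hm ?_ z
  have hw := hQ0 (q (n + 1)) (by omega) κ (coprime_of_mul_mod hκ') K hK1 hK2
    (3 * i0 * κ / q (n + 1)) (3 * i0 ^ 2 * κ / q (n + 1))
  refine le_trans (le_of_eq ?_) hw
  apply Finset.sum_congr rfl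
  intro h _
  congr 2
  unfold S
  apply Finset.sum_congr rfl
  intro k _
  congr 1
  push_cast
  ring

/-- Step B: the range where the previous denominator is very small. -/
lemma stepB (hKL : StKL) (hF : StF) {τ : Equiv.Perm X} {f : X → ℝ} {q : ℕ → ℕ} (hs : Sys τ f q)
    (ε : ℝ) (hε : 0 < ε) : ∃ n1 : ℕ, ∀ n, n1 ≤ n → 1 ≤ q n →
      (q n : ℝ) ≤ 16 * (q (n + 1) : ℝ) ^ (1 / 25 : ℝ) → ∀ N : ℕ,
      (q (n + 1) : ℝ) ^ (2 / 5 : ℝ) ≤ 2 * N → (N : ℝ) ≤ (q (n + 1) : ℝ) ^ (41 / 100 : ℝ) →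
      ∀ z, |∑ k ∈ range N, f ((τ ^ ((k ^ 3 : ℕ) : ℤ)) z)| ≤ ε * N := by
  obtain ⟨M, n1, hn1⟩ := level2 hF hs ε hε
  obtain ⟨Q0, hQ0⟩ := hKL M (ε ^ 2 / 8) (by positivity)
  refine ⟨max n1 (max Q0 1), fun n hn hqn hq1 N hN1 hN2 z => ?_⟩
  have hn1' : n1 ≤ n := le_trans (le_max_left _ _) hn
  have hnQ : Q0 ≤ n := le_trans (le_trans (le_max_left _ _) (le_max_right _ _)) hn
  have hn3 : 1 ≤ n := le_trans (le_trans (le_max_right _ _) (le_max_right _ _)) hn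
  have hid : n + 1 ≤ q (n + 1) := hs.hq.le_apply
  obtain ⟨κ, hκ⟩ := Nat.exists_mul_mod_eq_one_of_coprime (hs.hcop n) (by omega : 1 < q (n + 1))
  have hκ' : κ * q n % q (n + 1) = 1 := by rw [mul_comm]; exact hκ.2
  have hP1 : (1 : ℝ) ≤ q (n + 1) := by exact_mod_cast (by omega : 1 ≤ q (n + 1))
  have hm : ∀ k < N, ((k ^ 3 : ℕ) : ℝ) < (q (n + 1) : ℝ) * (q (n + 2) : ℝ) ^ (4 / 5 : ℝ) := by
    intro k hk
    have h1 : ((k ^ 3 : ℕ) : ℝ) < (N : ℝ) ^ 3 := by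
      push_cast
      have : (k : ℝ) < N := by exact_mod_cast hk
      exact pow_lt_pow_left₀ this (by positivity) (by norm_num)
    have h2 : (N : ℝ) ^ 3 ≤ ((q (n + 1) : ℝ) ^ (41 / 100 : ℝ)) ^ 3 :=
      pow_le_pow_left₀ (by positivity) hN2 3
    have h3 : ((q (n + 1) : ℝ) ^ (41 / 100 : ℝ)) ^ 3 ≤ (q (n + 1) : ℝ) * (q (n + 1) : ℝ) ^ (4 / 5 : ℝ) := by
      rw [← Real.rpow_natCast, ← Real.rpow_mul (by positivity)]
      have : (q (n + 1) : ℝ) * (q (n + 1) : ℝ) ^ (4 / 5 : ℝ) = (q (n + 1) : ℝ) ^ (1 + 4 / 5 : ℝ) := by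
        rw [Real.rpow_add (by linarith), Real.rpow_one]
      rw [this]
      apply Real.rpow_le_rpow_of_exponent_le hP1
      norm_num
    have h4 : (q (n + 1) : ℝ) ^ (4 / 5 : ℝ) ≤ (q (n + 2) : ℝ) ^ (4 / 5 : ℝ) := by
      apply Real.rpow_le_rpow (by positivity) _ (by norm_num)
      exact_mod_cast hs.hq.monotone (by omega)
    have h5 : (q (n + 1) : ℝ) * (q (n + 1) : ℝ) ^ (4 / 5 : ℝ) ≤
        (q (n + 1) : ℝ) * (q (n + 2) : ℝ) ^ (4 / 5 : ℝ) :=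
      mul_le_mul_of_nonneg_left h4 (by positivity)
    linarith
  refine hn1 n hn1' κ hκ' N (fun k => k ^ 3) hm ?_ z
  have hw := hQ0 (q (n + 1)) (by omega) (q n) κ hqn hκ' hq1 N hN1 hN2
  refine le_trans (le_of_eq ?_) hw
  apply Finset.sum_congr rfl
  intro h _
  congr 2
  unfold S
  apply Finset.sum_congr rfl
  intro k _
  congr 1
  push_cast
  ring

/-- sum over blocks -/
lemma sum_blocks (F : ℕ → ℝ) (K B : ℕ) :
    ∑ i ∈ range (B * K), F i = ∑ b ∈ range B, ∑ k ∈ range K, F (b * K + k) := by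
  induction B with
  | zero => simp
  | succ B ih =>
    rw [Nat.succ_mul, Finset.sum_range_add, ih, Finset.sum_range_succ]

theorem main_abs (hW : StW) (hKL : StKL) (hF : StF) {τ : Equiv.Perm X} {f : X → ℝ} {q : ℕ → ℕ}
    (hs : Sys τ f q) (ε : ℝ) (hε : 0 < ε) : ∃ N0 : ℕ, ∀ N : ℕ, N0 ≤ N →
      ∀ x, |∑ i ∈ range N, f ((τ ^ ((i ^ 3 : ℕ) : ℤ)) x)| ≤ ε * N := by
  obtain ⟨nA, hA⟩ := stepA hW hF hs (ε / 2) (by positivity)
  obtain ⟨nB, hB⟩ := stepB hKL hF hs ε hε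
  -- largeness of Q
  have e1 : ∀ᶠ x : ℝ in atTop, x ^ (41 / 100 : ℝ) + 1 ≤ x ^ (1 / 2 : ℝ) := by
    have h1 : ∀ᶠ x : ℝ in atTop, 2 ≤ x ^ (9 / 100 : ℝ) :=
      (tendsto_rpow_atTop (by norm_num : (0 : ℝ) < 9 / 100)).eventually_ge_atTop 2
    filter_upwards [h1, eventually_ge_atTop (1 : ℝ)] with x hx hx1
    have h2 : x ^ (1 / 2 : ℝ) = x ^ (41 / 100 : ℝ) * x ^ (9 / 100 : ℝ) := by
      rw [← Real.rpow_add (by linarith)]; norm_num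
    have h3 : 1 ≤ x ^ (41 / 100 : ℝ) := Real.one_le_rpow hx1 (by norm_num)
    rw [h2]
    nlinarith
  have e2 : ∀ᶠ x : ℝ in atTop, 2 / ε ≤ x ^ (1 / 20 : ℝ) :=
    (tendsto_rpow_atTop (by norm_num : (0 : ℝ) < 1 / 20)).eventually_ge_atTop _
  obtain ⟨x0, hx0⟩ := Filter.eventually_atTop.1 (e1.and e2)
  obtain ⟨Q2, hQ2⟩ := exists_nat_ge x0
  set n1 : ℕ := max (max nA nB) Q2 with hn1
  obtain ⟨N0, hN0⟩ := exists_nat_ge ((q (n1 + 1) : ℝ) ^ (41 / 100 : ℝ))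
  refine ⟨N0, fun N hN x => ?_⟩
  have hNr : (q (n1 + 1) : ℝ) ^ (41 / 100 : ℝ) ≤ N := hN0.trans (by exact_mod_cast hN)
  -- find the level
  obtain ⟨n, hnn1, hnN, hNn⟩ : ∃ n, n1 ≤ n ∧ (q (n + 1) : ℝ) ^ (41 / 100 : ℝ) ≤ N ∧
      (N : ℝ) < (q (n + 2) : ℝ) ^ (41 / 100 : ℝ) := by
    have hex : ∃ j, (N : ℝ) < (q (n1 + 1 + j) : ℝ) ^ (41 / 100 : ℝ) := by
      have ht : Tendsto (fun j : ℕ => (q (n1 + 1 + j) : ℝ) ^ (41 / 100 : ℝ)) atTop atTop := by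
        refine (tendsto_rpow_atTop (by norm_num : (0 : ℝ) < 41 / 100)).comp ?_
        refine tendsto_natCast_atTop_atTop.comp ?_
        refine hs.hq.tendsto_atTop.comp ?_
        exact tendsto_atTop_mono (fun j => by simp) tendsto_id
      exact (ht.eventually_gt_atTop (N : ℝ)).exists
    classical
    set j := Nat.find hex with hj
    have hj1 := Nat.find_spec hex
    have hj0 : j ≠ 0 := by
      intro h0
      have : (N : ℝ) < (q (n1 + 1 + 0) : ℝ) ^ (41 / 100 : ℝ) := by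
        have := hj1
        rw [← hj, h0] at this
        exact this
      simp only [add_zero] at this
      linarith
    obtain ⟨j', hj'⟩ := Nat.exists_eq_succ_of_ne_zero hj0
    refine ⟨n1 + j', by omega, ?_, ?_⟩
    · have := Nat.find_min hex (m := j') (by omega)
      rw [not_lt] at this
      have e : n1 + j' + 1 = n1 + 1 + j' := by ring
      rw [e]; exact this
    · have e : n1 + j' + 2 = n1 + 1 + j := by omega
      rw [e]; exact hj1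
  set Q : ℕ := q (n + 1) with hQ
  set P : ℕ := q (n + 2) with hP
  have hnA : nA ≤ n := le_trans (le_trans (le_max_left _ _) (le_max_left _ _)) hnn1
  have hnB : nB ≤ n := le_trans (le_trans (le_max_right _ _) (le_max_left _ _)) hnn1
  have hnQ : Q2 ≤ n := le_trans (le_max_right _ _) hnn1
  have hid : n + 1 ≤ Q := hs.hq.le_apply
  have hQP : Q ≤ P := hs.hq.monotone (by omega)
  have hQ1 : (1 : ℝ) ≤ Q := by exact_mod_cast (by omega : 1 ≤ Q)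
  have hQPr : (Q : ℝ) ≤ P := by exact_mod_cast hQP
  have hP1 : (1 : ℝ) ≤ P := hQ1.trans hQPr
  obtain ⟨b1, b2⟩ := hx0 (Q : ℝ) (hQ2.trans (by exact_mod_cast (by omega : Q2 ≤ Q)))
  have hN0' : (0 : ℝ) ≤ N := by positivity
  rcases le_or_gt (2 * (N : ℝ)) ((Q : ℝ) ^ (1 / 4 : ℝ) * (P : ℝ) ^ (2 / 5 : ℝ)) with hI | hII
  · -- Region I
    rcases le_or_gt (N : ℝ) ((Q : ℝ) ^ (55 / 100 : ℝ)) with hNs | hNl
    · have hm : ∀ k < N, ((k ^ 3 + 3 * 0 * k ^ 2 + 3 * 0 ^ 2 * k : ℕ) : ℝ) <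
          (Q : ℝ) * (P : ℝ) ^ (4 / 5 : ℝ) := by
        intro k hk
        have h1 : ((k ^ 3 + 3 * 0 * k ^ 2 + 3 * 0 ^ 2 * k : ℕ) : ℝ) < (N : ℝ) ^ 3 := by
          push_cast
          have : (k : ℝ) < N := by exact_mod_cast hk
          have := pow_lt_pow_left₀ this (by positivity) (by norm_num : (3 : ℕ) ≠ 0)
          simpa using this
        have h2 : (N : ℝ) ^ 3 ≤ ((Q : ℝ) ^ (55 / 100 : ℝ)) ^ 3 :=
          pow_le_pow_left₀ (by positivity) hNs 3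
        have h3 : ((Q : ℝ) ^ (55 / 100 : ℝ)) ^ 3 ≤ (Q : ℝ) * (Q : ℝ) ^ (4 / 5 : ℝ) := by
          rw [← Real.rpow_natCast, ← Real.rpow_mul (by positivity)]
          have : (Q : ℝ) * (Q : ℝ) ^ (4 / 5 : ℝ) = (Q : ℝ) ^ (1 + 4 / 5 : ℝ) := by
            rw [Real.rpow_add (by linarith), Real.rpow_one]
          rw [this]
          apply Real.rpow_le_rpow_of_exponent_le hQ1
          norm_num
        have h4 : (Q : ℝ) ^ (4 / 5 : ℝ) ≤ (P : ℝ) ^ (4 / 5 : ℝ) :=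
          Real.rpow_le_rpow (by positivity) hQPr (by norm_num)
        have h5 : (Q : ℝ) * (Q : ℝ) ^ (4 / 5 : ℝ) ≤ (Q : ℝ) * (P : ℝ) ^ (4 / 5 : ℝ) :=
          mul_le_mul_of_nonneg_left h4 (by positivity)
        exact lt_of_lt_of_le h1 (h2.trans (h3.trans h5))
      have := hA n hnA N hnN hNs 0 hm x
      simp only [mul_zero, zero_mul, add_zero, ne_eq, OfNat.ofNat_ne_zero, not_false_eq_true, zero_pow] at this
      refine this.trans ?_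
      nlinarith
    · -- blocks
      set K : ℕ := ⌊(Q : ℝ) ^ (1 / 2 : ℝ)⌋₊ with hK
      have hKle : (K : ℝ) ≤ (Q : ℝ) ^ (1 / 2 : ℝ) := Nat.floor_le (by positivity)
      have hKge : (Q : ℝ) ^ (41 / 100 : ℝ) ≤ K := by
        have := Nat.lt_floor_add_one ((Q : ℝ) ^ (1 / 2 : ℝ))
        rw [← hK] at this
        linarith
      have hKpos : 0 < K := by
        have h1 : 1 ≤ (Q : ℝ) ^ (41 / 100 : ℝ) := Real.one_le_rpow hQ1 (by norm_num)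
        have : (0 : ℝ) < K := by linarith
        exact_mod_cast this
      have hK55 : (K : ℝ) ≤ (Q : ℝ) ^ (55 / 100 : ℝ) :=
        hKle.trans (Real.rpow_le_rpow_of_exponent_le hQ1 (by norm_num))
      set B : ℕ := N / K with hB'
      have hBK : B * K ≤ N := Nat.div_mul_le_self N K
      have hNsplit : N = B * K + N % K := by
        rw [mul_comm]; exact (Nat.div_add_mod N K).symm
      have hmod : N % K < K := Nat.mod_lt _ hKpos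
      rw [hNsplit, Finset.sum_range_add, sum_blocks, ← hNsplit]
      -- leftover
      have hleft : |∑ i ∈ range (N % K), f ((τ ^ (((B * K + i) ^ 3 : ℕ) : ℤ)) x)| ≤ K := by
        refine (Finset.abs_sum_le_sum_abs _ _).trans ?_
        refine (Finset.sum_le_sum (fun i _ => hs.hf1 _)).trans ?_
        rw [Finset.sum_const, Finset.card_range, nsmul_eq_mul, mul_one]
        exact_mod_cast hmod.le
      have hKN : (K : ℝ) ≤ ε / 2 * N := by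
        have h1 : (Q : ℝ) ^ (55 / 100 : ℝ) = (Q : ℝ) ^ (1 / 2 : ℝ) * (Q : ℝ) ^ (1 / 20 : ℝ) := by
          rw [← Real.rpow_add (by linarith)]; norm_num
        have h2 : (Q : ℝ) ^ (1 / 2 : ℝ) * (2 / ε) ≤ N := by
          calc (Q : ℝ) ^ (1 / 2 : ℝ) * (2 / ε) ≤ (Q : ℝ) ^ (1 / 2 : ℝ) * (Q : ℝ) ^ (1 / 20 : ℝ) :=
                mul_le_mul_of_nonneg_left b2 (by positivity)
            _ = (Q : ℝ) ^ (55 / 100 : ℝ) := h1.symm
            _ ≤ N := hNl.le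
        calc (K : ℝ) ≤ (Q : ℝ) ^ (1 / 2 : ℝ) := hKle
          _ = ε / 2 * ((Q : ℝ) ^ (1 / 2 : ℝ) * (2 / ε)) := by field_simp
          _ ≤ ε / 2 * N := mul_le_mul_of_nonneg_left h2 (by positivity)
      have hblock : ∀ b < B, |∑ k ∈ range K, f ((τ ^ (((b * K + k) ^ 3 : ℕ) : ℤ)) x)| ≤ ε / 2 * K := by
        intro b hb
        have hbK : b * K + K ≤ N := by
          calc b * K + K = (b + 1) * K := by ring
            _ ≤ B * K := Nat.mul_le_mul_right _ hb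
            _ ≤ N := hBK
        have hm : ∀ k < K, ((k ^ 3 + 3 * (b * K) * k ^ 2 + 3 * (b * K) ^ 2 * k : ℕ) : ℝ) <
            (Q : ℝ) * (P : ℝ) ^ (4 / 5 : ℝ) := by
          intro k hk
          have h1 : k ^ 3 + 3 * (b * K) * k ^ 2 + 3 * (b * K) ^ 2 * k ≤ 3 * K * N ^ 2 := by
            have h2 : k ^ 3 + 3 * (b * K) * k ^ 2 + 3 * (b * K) ^ 2 * k ≤ k * (3 * (b * K + k) ^ 2) := by
              have : k * (3 * (b * K + k) ^ 2) = (k ^ 3 + 3 * (b * K) * k ^ 2 + 3 * (b * K) ^ 2 * k) +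
                (2 * k ^ 3 + 3 * (b * K) * k ^ 2) := by ring
              omega
            have h3 : k * (3 * (b * K + k) ^ 2) ≤ K * (3 * N ^ 2) := by
              apply Nat.mul_le_mul hk.le
              apply Nat.mul_le_mul_left
              apply Nat.pow_le_pow_left
              omega
            calc _ ≤ _ := h2
              _ ≤ _ := h3
              _ = _ := by ring
          have h1' : ((k ^ 3 + 3 * (b * K) * k ^ 2 + 3 * (b * K) ^ 2 * k : ℕ) : ℝ) ≤ 3 * K * (N : ℝ) ^ 2 := by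
            exact_mod_cast h1
          have h2 : (2 * (N : ℝ)) ^ 2 ≤ ((Q : ℝ) ^ (1 / 4 : ℝ) * (P : ℝ) ^ (2 / 5 : ℝ)) ^ 2 :=
            pow_le_pow_left₀ (by positivity) hI 2
          have h3 : ((Q : ℝ) ^ (1 / 4 : ℝ) * (P : ℝ) ^ (2 / 5 : ℝ)) ^ 2 =
              (Q : ℝ) ^ (1 / 2 : ℝ) * (P : ℝ) ^ (4 / 5 : ℝ) := by
            rw [mul_pow, ← Real.rpow_natCast, ← Real.rpow_natCast, ← Real.rpow_mul (by positivity),
              ← Real.rpow_mul (by positivity)]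
            norm_num
          have h4 : (Q : ℝ) ^ (1 / 2 : ℝ) * (Q : ℝ) ^ (1 / 2 : ℝ) = Q := by
            rw [← Real.rpow_add (by linarith)]; norm_num
          have h5 : (0 : ℝ) < (Q : ℝ) ^ (1 / 2 : ℝ) := by positivity
          have h6 : (0 : ℝ) < (P : ℝ) ^ (4 / 5 : ℝ) := by positivity
          have h7 : (N : ℝ) ^ 2 ≤ (Q : ℝ) ^ (1 / 2 : ℝ) * (P : ℝ) ^ (4 / 5 : ℝ) / 4 := by
            rw [h3] at h2
            linarith
          have h8 : 3 * (K : ℝ) * (N : ℝ) ^ 2 ≤ 3 * (Q : ℝ) ^ (1 / 2 : ℝ) *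
              ((Q : ℝ) ^ (1 / 2 : ℝ) * (P : ℝ) ^ (4 / 5 : ℝ) / 4) := by
            apply mul_le_mul _ h7 (by positivity) (by positivity)
            linarith
          have h9 : 3 * (Q : ℝ) ^ (1 / 2 : ℝ) *
              ((Q : ℝ) ^ (1 / 2 : ℝ) * (P : ℝ) ^ (4 / 5 : ℝ) / 4) = 3 / 4 * ((Q : ℝ) * (P : ℝ) ^ (4 / 5 : ℝ)) := by
            calc 3 * (Q : ℝ) ^ (1 / 2 : ℝ) * ((Q : ℝ) ^ (1 / 2 : ℝ) * (P : ℝ) ^ (4 / 5 : ℝ) / 4) =
                  3 / 4 * (((Q : ℝ) ^ (1 / 2 : ℝ) * (Q : ℝ) ^ (1 / 2 : ℝ)) * (P : ℝ) ^ (4 / 5 : ℝ)) := by ring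
              _ = _ := by rw [h4]
          have h10 : (0 : ℝ) < (Q : ℝ) * (P : ℝ) ^ (4 / 5 : ℝ) := by positivity
          linarith
        have := hA n hnA K hKge hK55 (b * K) hm ((τ ^ (((b * K) ^ 3 : ℕ) : ℤ)) x)
        refine le_trans (le_of_eq ?_) this
        congr 1
        apply Finset.sum_congr rfl
        intro k _
        rw [← zpow_apply_add]
        congr 3
        push_cast
        ring
      have hsum : |∑ b ∈ range B, ∑ k ∈ range K, f ((τ ^ (((b * K + k) ^ 3 : ℕ) : ℤ)) x)| ≤ ε / 2 * N := by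
        refine (Finset.abs_sum_le_sum_abs _ _).trans ?_
        refine (Finset.sum_le_sum (fun b hb => hblock b (Finset.mem_range.1 hb))).trans ?_
        rw [Finset.sum_const, Finset.card_range, nsmul_eq_mul]
        have : ((B * K : ℕ) : ℝ) ≤ N := by exact_mod_cast hBK
        push_cast at this
        nlinarith
      refine (abs_add_le _ _).trans ?_
      linarith
  · -- Region II
    have hQ0 : (0 : ℝ) < Q := by linarith
    have hP0 : (0 : ℝ) < P := by linarith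
    have h1 : (Q : ℝ) ^ (1 / 4 : ℝ) ≤ 2 * (P : ℝ) ^ (1 / 100 : ℝ) := by
      have h2 : (Q : ℝ) ^ (1 / 4 : ℝ) * (P : ℝ) ^ (2 / 5 : ℝ) < 2 * (P : ℝ) ^ (1 / 100 : ℝ) * (P : ℝ) ^ (2 / 5 : ℝ) := by
        have h3 : (P : ℝ) ^ (41 / 100 : ℝ) = (P : ℝ) ^ (1 / 100 : ℝ) * (P : ℝ) ^ (2 / 5 : ℝ) := by
          rw [← Real.rpow_add hP0]; norm_num
        have : 2 * (P : ℝ) ^ (1 / 100 : ℝ) * (P : ℝ) ^ (2 / 5 : ℝ) = 2 * (P : ℝ) ^ (41 / 100 : ℝ) := by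
          rw [h3]; ring
        rw [this]
        linarith
      exact (lt_of_mul_lt_mul_right h2 (by positivity)).le
    have h2 : (Q : ℝ) ≤ 16 * (P : ℝ) ^ (1 / 25 : ℝ) := by
      have h3 : ((Q : ℝ) ^ (1 / 4 : ℝ)) ^ 4 ≤ (2 * (P : ℝ) ^ (1 / 100 : ℝ)) ^ 4 :=
        pow_le_pow_left₀ (by positivity) h1 4
      have h4 : ((Q : ℝ) ^ (1 / 4 : ℝ)) ^ 4 = Q := by
        rw [← Real.rpow_natCast, ← Real.rpow_mul (by positivity)]; norm_num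
      have h5 : (2 * (P : ℝ) ^ (1 / 100 : ℝ)) ^ 4 = 16 * (P : ℝ) ^ (1 / 25 : ℝ) := by
        rw [mul_pow, ← Real.rpow_natCast ((P : ℝ) ^ (1 / 100 : ℝ)), ← Real.rpow_mul (by positivity)]; norm_num
      rw [h4, h5] at h3
      exact h3
    have h3 : (P : ℝ) ^ (2 / 5 : ℝ) ≤ 2 * N := by
      have h4 : 1 ≤ (Q : ℝ) ^ (1 / 4 : ℝ) := Real.one_le_rpow hQ1 (by norm_num)
      have h5 : (0 : ℝ) < (P : ℝ) ^ (2 / 5 : ℝ) := by positivity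
      nlinarith
    exact hB (n + 1) (by omega) (by omega) h2 N h3 hNn.le x

end Pool.Agent.R286.CU
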