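import Mathlib
import Pool.Agent.R286.CU.Stm
import Pool.Agent.R286.CU.D1
import Pool.Agent.R286.CU.D2
import Pool.Agent.R203.UE

set_option autoImplicit false

namespace Pool.Agent.R286.CU

open Finset Filter MeasureTheory Topology

universe u

/-- Rigidity condition (R) along the sequence `q`. -/
def CondR {X : Type u} [MetricSpace X] (T : X ≃ₜ X) (q : ℕ → ℕ) : Prop :=
  StrictMono q ∧ (∀ n, 0 < q n) ∧ (∀ n, Nat.Coprime (q n) (q (n + 1))) ∧
    ∀ ε : ℝ, 0 < ε → ∃ n0 : ℕ, ∀ n, n0 ≤ n → ∀ t : ℕ, (t : ℝ) < (q (n + 1) : ℝ) ^ (4 / 5 : ℝ) →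
      ∀ x : X, dist x (T^[t * q n] x) ≤ ε

lemma zpow_nat_apply {X : Type u} (τ : Equiv.Perm X) (n : ℕ) (x : X) :
    (τ ^ (n : ℤ)) x = τ^[n] x := by
  rw [zpow_natCast, Equiv.Perm.iterate_eq_pow]

/-- real functions with zero mean -/
theorem real_zero (hW : StW) (hKL : StKL) (hF : StF) {X : Type u} [MetricSpace X] [CompactSpace X]
    [MeasurableSpace X] [BorelSpace X] (T : X ≃ₜ X) (μ : Measure X)
    (huniq : ∀ ν : Measure X, IsProbabilityMeasure ν → MeasurePreserving T ν ν → ν = μ)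
    (q : ℕ → ℕ) (hR : CondR T q) (g : X → ℝ) (hg : Continuous g) (hg1 : ∀ x, |g x| ≤ 1)
    (hg0 : ∫ x, g x ∂μ = 0) (ε : ℝ) (hε : 0 < ε) : ∃ N0 : ℕ, ∀ N : ℕ, N0 ≤ N →
      ∀ x, |∑ i ∈ range N, g (T^[i ^ 3] x)| ≤ ε * N := by
  obtain ⟨hq, hq0, hcop, hrig⟩ := hR
  have huc : UniformContinuous g := CompactSpace.uniformContinuous_of_continuous hg
  have hs : Sys (T.toEquiv : Equiv.Perm X) g q := by
    refine ⟨hg1, hq, hcop, ?_, ?_⟩
    · intro δ hδ
      obtain ⟨η, hη, hη'⟩ := Metric.uniformContinuous_iff.1 huc δ hδ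
      obtain ⟨n0, hn0⟩ := hrig (η / 2) (by positivity)
      refine ⟨n0, fun n hn t ht x => ?_⟩
      rcases le_or_gt 0 t with h0 | h0
      · obtain ⟨s, rfl⟩ := Int.eq_ofNat_of_zero_le h0
        have h1 : ((s : ℤ) * (q n : ℤ)) = ((s * q n : ℕ) : ℤ) := by push_cast; ring
        rw [h1, zpow_nat_apply]
        have h2 : (s : ℝ) < (q (n + 1) : ℝ) ^ (4 / 5 : ℝ) := by simpa using ht
        have h3 := hn0 n hn s h2 x
        have h4 : dist ((T.toEquiv : X → X)^[s * q n] x) x < η := by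
          rw [dist_comm]
          exact lt_of_le_of_lt h3 (by linarith)
        exact (hη' h4).le
      · obtain ⟨s, hs⟩ := Int.eq_ofNat_of_zero_le (by omega : 0 ≤ -t)
        have hts : t = -(s : ℤ) := by omega
        subst hts
        have h2 : (s : ℝ) < (q (n + 1) : ℝ) ^ (4 / 5 : ℝ) := by simpa using ht
        set y : X := ((T.toEquiv : Equiv.Perm X) ^ (-(s : ℤ) * (q n : ℤ))) x with hy
        have hxy : x = (T : X → X)^[s * q n] y := by
          have e1 : (T : X → X)^[s * q n] y = ((T.toEquiv : Equiv.Perm X) ^ ((s * q n : ℕ) : ℤ)) y := by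
            rw [zpow_nat_apply]; rfl
          rw [e1, hy, ← zpow_apply_add]
          have e2 : ((s * q n : ℕ) : ℤ) + -(s : ℤ) * (q n : ℤ) = 0 := by push_cast; ring
          rw [e2, zpow_zero]
          rfl
        have h3 := hn0 n hn s h2 y
        rw [← hxy] at h3
        have h4 : dist y x < η := lt_of_le_of_lt h3 (by linarith)
        exact (hη' h4).le
    · intro δ hδ
      obtain ⟨L0, hL0⟩ := Pool.Agent.R203.UE.unif (T := T) T.continuous huniq hg hδ
      refine ⟨max L0 1, fun L hL x => ?_⟩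
      have h1 := hL0 L (le_trans (le_max_left _ _) hL) x
      have hL1 : 1 ≤ L := le_trans (le_max_right _ _) hL
      have hLpos : (0 : ℝ) < L := by exact_mod_cast hL1
      rw [hg0, sub_zero, abs_mul, abs_of_pos (by positivity : (0 : ℝ) < 1 / L)] at h1
      have h2 : ∑ s ∈ range L, g (((T.toEquiv : Equiv.Perm X) ^ (s : ℤ)) x) =
          ∑ s ∈ range L, g (T^[s] x) := by
        apply Finset.sum_congr rfl
        intro s _
        rw [zpow_nat_apply]
        rfl
      rw [h2]
      have h3 : |∑ s ∈ range L, g (T^[s] x)| / L < δ := by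
        rw [div_eq_inv_mul, ← one_div]; exact h1
      rw [div_lt_iff₀ hLpos] at h3
      exact h3.le
  obtain ⟨N0, hN0⟩ := main_abs hW hKL hF hs ε hε
  refine ⟨N0, fun N hN x => ?_⟩
  have h1 := hN0 N hN x
  have h2 : ∑ i ∈ range N, g (((T.toEquiv : Equiv.Perm X) ^ ((i ^ 3 : ℕ) : ℤ)) x) =
      ∑ i ∈ range N, g (T^[i ^ 3] x) := by
    apply Finset.sum_congr rfl
    intro i _
    rw [zpow_nat_apply]
    rfl
  rwa [h2] at h1

/-- real functions -/
theorem real_case (hW : StW) (hKL : StKL) (hF : StF) {X : Type u} [MetricSpace X] [CompactSpace X]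
    [MeasurableSpace X] [BorelSpace X] (T : X ≃ₜ X) (μ : Measure X) [IsProbabilityMeasure μ]
    (huniq : ∀ ν : Measure X, IsProbabilityMeasure ν → MeasurePreserving T ν ν → ν = μ)
    (q : ℕ → ℕ) (hR : CondR T q) (g : X → ℝ) (hg : Continuous g) (ε : ℝ) (hε : 0 < ε) :
    ∃ N0 : ℕ, ∀ N : ℕ, N0 ≤ N → ∀ x, |1 / (N : ℝ) * ∑ i ∈ range N, g (T^[i ^ 3] x) - ∫ x, g x ∂μ| ≤ ε := by
  obtain ⟨C, hC⟩ := (isCompact_univ.image hg).isBounded.exists_norm_le
  have hC' : ∀ x, |g x| ≤ C := fun x => by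
    have := hC (g x) ⟨x, trivial, rfl⟩
    rwa [Real.norm_eq_abs] at this
  have hne : Nonempty X := by
    by_contra h
    rw [not_nonempty_iff] at h
    have h1 : μ Set.univ = 1 := measure_univ
    rw [Set.univ_eq_empty_iff.2 h, measure_empty] at h1
    exact zero_ne_one h1
  have hC0 : 0 ≤ C := (abs_nonneg _).trans (hC' hne.some)
  have hint : Integrable g μ := by
    refine Integrable.of_bound hg.aestronglyMeasurable C (Filter.Eventually.of_forall fun x => ?_)
    rw [Real.norm_eq_abs]; exact hC' x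
  set c : ℝ := ∫ x, g x ∂μ with hc
  have hcC : |c| ≤ C := by
    have := norm_integral_le_of_norm_le_const (μ := μ) (f := g) (C := C)
      (Filter.Eventually.of_forall fun x => by rw [Real.norm_eq_abs]; exact hC' x)
    simpa using this
  set A : ℝ := 2 * C + 1 with hA
  have hApos : 0 < A := by positivity
  have hmain := real_zero hW hKL hF T μ huniq q hR (fun x => (g x - c) / A) (by fun_prop)
    (by
      intro x
      rw [abs_div, abs_of_pos hApos, div_le_one hApos]
      calc |g x - c| ≤ |g x| + |c| := abs_sub _ _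
        _ ≤ A := by linarith [hC' x])
    (by
      rw [integral_div, integral_sub hint (integrable_const _)]
      simp [hc])
    (ε / A) (by positivity)
  obtain ⟨N0, hN0⟩ := hmain
  refine ⟨max N0 1, fun N hN x => ?_⟩
  have h1 := hN0 N (le_trans (le_max_left _ _) hN) x
  have hN1 : 1 ≤ N := le_trans (le_max_right _ _) hN
  have hNpos : (0 : ℝ) < N := by exact_mod_cast hN1
  have h2 : ∑ i ∈ range N, (g (T^[i ^ 3] x) - c) / A = (∑ i ∈ range N, g (T^[i ^ 3] x) - N * c) / A := by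
    rw [← Finset.sum_div, Finset.sum_sub_distrib, Finset.sum_const, Finset.card_range, nsmul_eq_mul]
  rw [h2, abs_div, abs_of_pos hApos, div_le_iff₀ hApos] at h1
  have h3 : ε / A * N * A = ε * N := by field_simp
  rw [h3] at h1
  have h4 : 1 / (N : ℝ) * ∑ i ∈ range N, g (T^[i ^ 3] x) - c =
      (∑ i ∈ range N, g (T^[i ^ 3] x) - N * c) / N := by
    field_simp
  rw [h4, abs_div, abs_of_pos hNpos, div_le_iff₀ hNpos]
  exact h1

/-- complex functions, uniform convergence -/
theorem complex_case (hW : StW) (hKL : StKL) (hF : StF) {X : Type u} [MetricSpace X] [CompactSpace X]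
    [MeasurableSpace X] [BorelSpace X] (T : X ≃ₜ X) (μ : Measure X) [IsProbabilityMeasure μ]
    (huniq : ∀ ν : Measure X, IsProbabilityMeasure ν → MeasurePreserving T ν ν → ν = μ)
    (q : ℕ → ℕ) (hR : CondR T q) (f : C(X, ℂ)) :
    TendstoUniformly (fun (N : ℕ) (x : X) => (1 / (N : ℂ)) * ∑ i ∈ range N, f (T^[i ^ 3] x))
      (fun _ => ∫ x, f x ∂μ) atTop := by
  rw [Metric.tendstoUniformly_iff]
  intro ε hε
  obtain ⟨N1, hN1⟩ := real_case hW hKL hF T μ huniq q hR (fun x => (f x).re)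
    (Complex.continuous_re.comp f.continuous) (ε / 3) (by positivity)
  obtain ⟨N2, hN2⟩ := real_case hW hKL hF T μ huniq q hR (fun x => (f x).im)
    (Complex.continuous_im.comp f.continuous) (ε / 3) (by positivity)
  have hint : Integrable (fun x => f x) μ := by
    obtain ⟨C, hC⟩ := (isCompact_univ.image f.continuous).isBounded.exists_norm_le
    refine Integrable.of_bound f.continuous.aestronglyMeasurable C (Filter.Eventually.of_forall fun x => ?_)
    exact hC (f x) ⟨x, trivial, rfl⟩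
  filter_upwards [eventually_ge_atTop (max N1 N2)] with N hN x
  have h1 := hN1 N (le_trans (le_max_left _ _) hN) x
  have h2 := hN2 N (le_trans (le_max_right _ _) hN) x
  rw [dist_comm, dist_eq_norm]
  set z : ℂ := (1 / (N : ℂ)) * ∑ i ∈ range N, f (T^[i ^ 3] x) - ∫ x, f x ∂μ with hz
  have hre : z.re = 1 / (N : ℝ) * ∑ i ∈ range N, (f (T^[i ^ 3] x)).re - ∫ x, (f x).re ∂μ := by
    have e1 : (∫ x, f x ∂μ).re = ∫ x, (f x).re ∂μ := by
      have := integral_re hint
      simpa using this.symm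
    have e2 : (1 / (N : ℂ)) = ((1 / (N : ℝ) : ℝ) : ℂ) := by push_cast; rfl
    rw [hz, Complex.sub_re, e1, e2, Complex.re_ofReal_mul, Complex.re_sum]
  have him : z.im = 1 / (N : ℝ) * ∑ i ∈ range N, (f (T^[i ^ 3] x)).im - ∫ x, (f x).im ∂μ := by
    have e1 : (∫ x, f x ∂μ).im = ∫ x, (f x).im ∂μ := by
      have := integral_im hint
      simpa using this.symm
    have e2 : (1 / (N : ℂ)) = ((1 / (N : ℝ) : ℝ) : ℂ) := by push_cast; rfl
    rw [hz, Complex.sub_im, e1, e2, Complex.im_ofReal_mul, Complex.im_sum]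
  calc ‖z‖ ≤ |z.re| + |z.im| := Complex.norm_le_abs_re_add_abs_im z
    _ ≤ ε / 3 + ε / 3 := by
        rw [hre, him]
        exact add_le_add h1 h2
    _ < ε := by linarith

end Pool.Agent.R286.CU
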