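import Pool.Agent.R286.CU.Stm

/-!
Part CU-F of MP_e4c747_an: finite Fourier lemma with the Fejér kernel on `ℤ/Q` (by helper715).
-/

set_option autoImplicit false
set_option maxHeartbeats 400000

namespace Pool.Agent.R286.CU.F

open Finset Pool.Agent.H469R2.NK


/-- `E m = e (m / Q)` -/
noncomputable def E (Q : ℕ) (m : ℤ) : ℂ := Pool.Agent.H469R2.NK.e ((m : ℝ) / (Q : ℝ))

variable {Q : ℕ}

theorem norm_E (m : ℤ) : ‖E Q m‖ = 1 := norm_e _

theorem E_zero : E Q 0 = 1 := by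
  unfold E
  simp [e_zero]

theorem E_add (m n : ℤ) : E Q (m + n) = E Q m * E Q n := by
  unfold E
  rw [← e_add]
  congr 1
  push_cast
  ring

theorem conj_E (m : ℤ) : (starRingEnd ℂ) (E Q m) = E Q (-m) := by
  unfold E
  rw [conj_e]
  congr 1
  push_cast
  ring

theorem E_nat_mul (m : ℤ) (n : ℕ) : E Q (n * m) = E Q m ^ n := by
  induction n with
  | zero => simp [E_zero]
  | succ n ih =>
    rw [pow_succ, ← ih, ← E_add]
    congr 1
    push_cast
    ring

theorem E_eq_one_of_dvd (hQ : 0 < Q) {m : ℤ} (h : (Q : ℤ) ∣ m) : E Q m = 1 := by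
  obtain ⟨k, rfl⟩ := h
  have h1 : E Q (Q * 1) = 1 := by
    unfold E
    have hQ' : (Q : ℝ) ≠ 0 := by positivity
    have : (((Q : ℤ) * 1 : ℤ) : ℝ) / (Q : ℝ) = ((1 : ℕ) : ℝ) := by
      push_cast
      field_simp
    rw [this, e_nat]
  have h2 : ∀ n : ℕ, E Q (Q * n) = 1 := by
    intro n
    have := E_nat_mul (Q := Q) (Q * 1) n
    rw [h1, one_pow] at this
    rw [← this]
    congr 1
    ring
  rcases Int.eq_nat_or_neg k with ⟨n, rfl | rfl⟩
  · exact h2 n
  · have h3 := conj_E (Q := Q) ((Q : ℤ) * n)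
    rw [h2 n, map_one] at h3
    rw [h3]
    congr 1
    ring

/-- the norm of `E s - 1` -/
theorem norm_E_sub_one (s : ℤ) : ‖E Q s - 1‖ = 2 * |Real.sin (Real.pi * ((s : ℝ) / Q))| := by
  unfold E Pool.Agent.H469R2.NK.e
  rw [mul_comm (((2 * Real.pi * ((s : ℝ) / Q) : ℝ) : ℂ)) Complex.I,
    Complex.norm_exp_I_mul_ofReal_sub_one, norm_mul, Real.norm_eq_abs, Real.norm_eq_abs,
    abs_of_pos (by norm_num : (0:ℝ) < 2)]
  congr 3
  ring

theorem norm_E_sub_one_ge (hQ : 0 < Q) {s m : ℕ} (hm : 0 < m) (h1 : m ≤ s) (h2 : s + m ≤ Q) :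
    4 * ((m : ℝ) / Q) ≤ ‖E Q (s : ℤ) - 1‖ := by
  rw [norm_E_sub_one]
  have hQ' : (0 : ℝ) < Q := by exact_mod_cast hQ
  have hm' : (0 : ℝ) < m := by exact_mod_cast hm
  have h1' : (m : ℝ) ≤ s := by exact_mod_cast h1
  have h2' : (s : ℝ) + m ≤ Q := by exact_mod_cast h2
  have h3 := sin_ge (θ := (m : ℝ) / Q) (δ := ((s : ℤ) : ℝ) / Q) (by positivity)
    (by push_cast; gcongr) (by
      push_cast
      rw [le_sub_iff_add_le, ← add_div, div_le_one hQ']
      exact h2')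
  have h4 := le_abs_self (Real.sin (Real.pi * (((s : ℤ) : ℝ) / Q)))
  linarith

theorem E_ne_one (hQ : 0 < Q) {s : ℕ} (h0 : 0 < s) (h1 : s < Q) : E Q (s : ℤ) ≠ 1 := by
  intro h
  have hm : 0 < min s (Q - s) := by
    rw [lt_min_iff]
    omega
  have h2 := norm_E_sub_one_ge hQ hm (min_le_left _ _) (by
    have := min_le_right s (Q - s)
    omega)
  rw [h, sub_self, norm_zero] at h2
  have hQ' : (0 : ℝ) < Q := by exact_mod_cast hQ
  have : (0 : ℝ) < ((min s (Q - s) : ℕ) : ℝ) := by exact_mod_cast hm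
  have : (0 : ℝ) < 4 * (((min s (Q - s) : ℕ) : ℝ) / Q) := by positivity
  linarith

theorem orth (hQ : 0 < Q) {s s' : ℕ} (hs : s < Q) (hs' : s' < Q) :
    ∑ b ∈ range Q, E Q ((b : ℤ) * ((s : ℤ) - s')) = if s = s' then (Q : ℂ) else 0 := by
  split_ifs with h
  · subst h
    simp [E_zero]
  · have hne : E Q ((s : ℤ) - s') ≠ 1 := by
      rcases lt_or_gt_of_ne h with h | h
      · intro h1
        have h2 := conj_E (Q := Q) ((s : ℤ) - s')
        rw [h1, map_one] at h2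
        have h3 : -((s : ℤ) - s') = ((s' - s : ℕ) : ℤ) := by
          push_cast [Nat.cast_sub h.le]
          ring
        rw [h3] at h2
        exact E_ne_one hQ (by omega) (by omega) h2.symm
      · intro h1
        have h3 : ((s : ℤ) - s') = ((s - s' : ℕ) : ℤ) := by
          push_cast [Nat.cast_sub h.le]
          ring
        rw [h3] at h1
        exact E_ne_one hQ (by omega) (by omega) h1
    have h1 : ∑ b ∈ range Q, E Q ((b : ℤ) * ((s : ℤ) - s')) =
        ∑ b ∈ range Q, E Q ((s : ℤ) - s') ^ b :=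
      sum_congr rfl fun b _ => E_nat_mul _ b
    rw [h1, geom_sum_eq hne, ← E_nat_mul, E_eq_one_of_dvd hQ (Dvd.intro _ rfl)]
    simp

/-- Parseval -/
theorem parseval (hQ : 0 < Q) (g : ℕ → ℂ) :
    ∑ b ∈ range Q, ‖∑ s ∈ range Q, E Q ((b : ℤ) * s) * g s‖ ^ 2 =
      Q * ∑ s ∈ range Q, ‖g s‖ ^ 2 := by
  have hn : ∀ z : ℂ, ((‖z‖ ^ 2 : ℝ) : ℂ) = z * (starRingEnd ℂ) z := by
    intro z
    rw [Complex.mul_conj, Complex.normSq_eq_norm_sq]
  have key : ((∑ b ∈ range Q, ‖∑ s ∈ range Q, E Q ((b : ℤ) * s) * g s‖ ^ 2 : ℝ) : ℂ) =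
      ((Q * ∑ s ∈ range Q, ‖g s‖ ^ 2 : ℝ) : ℂ) := by
    rw [Complex.ofReal_sum, Complex.ofReal_mul, Complex.ofReal_sum, Complex.ofReal_natCast]
    simp only [hn]
    have h1 : ∀ b : ℕ, (∑ s ∈ range Q, E Q ((b : ℤ) * s) * g s) *
        (starRingEnd ℂ) (∑ s ∈ range Q, E Q ((b : ℤ) * s) * g s) =
        ∑ s ∈ range Q, ∑ s' ∈ range Q, g s * (starRingEnd ℂ) (g s') * E Q ((b : ℤ) * ((s : ℤ) - s')) := by
      intro b
      rw [map_sum, sum_mul_sum]
      refine sum_congr rfl fun s _ => sum_congr rfl fun s' _ => ?_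
      rw [map_mul, conj_E]
      have : E Q ((b : ℤ) * ((s : ℤ) - s')) = E Q ((b : ℤ) * s) * E Q (-((b : ℤ) * s')) := by
        rw [← E_add]
        congr 1
        ring
      rw [this]
      ring
    simp only [h1]
    rw [sum_comm]
    rw [mul_sum]
    refine sum_congr rfl fun s hs => ?_
    rw [sum_comm]
    have h2 : ∀ s' ∈ range Q, ∑ b ∈ range Q, g s * (starRingEnd ℂ) (g s') * E Q ((b : ℤ) * ((s : ℤ) - s')) =
        if s = s' then (Q : ℂ) * (g s * (starRingEnd ℂ) (g s)) else 0 := by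
      intro s' hs'
      rw [← mul_sum, orth hQ (mem_range.1 hs) (mem_range.1 hs')]
      split_ifs with h
      · subst h
        ring
      · ring
    rw [sum_congr rfl h2, sum_ite_eq, if_pos hs]
  exact_mod_cast key

/-- shifting a periodic sum -/
theorem shift_sum (F : ℤ → ℂ) (hF : ∀ u, F (u + Q) = F u) (t : ℤ) :
    ∑ s ∈ range Q, F (t + s) = ∑ s ∈ range Q, F s := by
  have step : ∀ t : ℤ, ∑ s ∈ range Q, F (t + 1 + s) = ∑ s ∈ range Q, F (t + s) := by
    intro t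
    have h1 := sum_range_succ (fun s : ℕ => F (t + s)) Q
    have h2 := sum_range_succ' (fun s : ℕ => F (t + s)) Q
    rw [h1] at h2
    simp only [hF, Nat.cast_add, Nat.cast_one, Nat.cast_zero, add_zero] at h2
    have h3 := add_right_cancel h2
    rw [h3]
    refine sum_congr rfl fun s _ => ?_
    congr 1
    ring
  induction t using Int.induction_on with
  | zero => simp
  | succ i ih => rw [step, ih]
  | pred i ih =>
    rw [← ih]
    have := step (-(i : ℤ) - 1)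
    rw [← this]
    refine sum_congr rfl fun s _ => ?_
    congr 1
    ring

/-- the Dirichlet kernel -/
noncomputable def D (Q H : ℕ) (s : ℤ) : ℂ := ∑ a ∈ range H, E Q ((a : ℤ) * s)

/-- the Fejér kernel -/
noncomputable def Kf (Q H : ℕ) (s : ℤ) : ℝ := ‖D Q H s‖ ^ 2 / (Q * H)

variable {H : ℕ}

theorem Kf_nonneg (s : ℤ) : 0 ≤ Kf Q H s := by
  unfold Kf
  positivity

theorem D_eq (hHQ : H ≤ Q) (s : ℕ) : D Q H s =
    ∑ a ∈ range Q, E Q ((s : ℤ) * a) * (if a < H then 1 else 0) := by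
  unfold D
  have : range H = (range Q).filter (fun a => a < H) := by
    ext a
    simp only [mem_range, mem_filter]
    omega
  rw [this, sum_filter]
  refine sum_congr rfl fun a _ => ?_
  split_ifs
  · rw [mul_one, mul_comm]
  · rw [mul_zero]

theorem sum_Kf (hQ : 0 < Q) (hH : 0 < H) (hHQ : H ≤ Q) : ∑ s ∈ range Q, Kf Q H s = 1 := by
  unfold Kf
  rw [← sum_div]
  have h1 := parseval hQ (fun a => if a < H then (1 : ℂ) else 0)
  have h2 : ∑ s ∈ range Q, ‖D Q H (s : ℤ)‖ ^ 2 = Q * H := by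
    rw [show (∑ s ∈ range Q, ‖D Q H (s : ℤ)‖ ^ 2) = ∑ b ∈ range Q, ‖∑ s ∈ range Q,
        E Q ((b : ℤ) * s) * (if s < H then (1 : ℂ) else 0)‖ ^ 2 from
      sum_congr rfl fun s _ => by rw [D_eq hHQ s], h1]
    congr 1
    have h3 : ∀ s ∈ range Q, ‖(if s < H then (1 : ℂ) else 0)‖ ^ 2 = if s < H then (1 : ℝ) else 0 := by
      intro s _
      split_ifs <;> simp
    rw [sum_congr rfl h3, sum_ite, sum_const_zero, add_zero, sum_const, nsmul_eq_mul, mul_one]
    have : (range Q).filter (fun a => a < H) = range H := by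
      ext a
      simp only [mem_range, mem_filter]
      omega
    rw [this, card_range]
  rw [h2]
  have : (0 : ℝ) < Q := by exact_mod_cast hQ
  have : (0 : ℝ) < H := by exact_mod_cast hH
  field_simp

theorem Kf_le (hQ : 0 < Q) (hH : 0 < H) {s m : ℕ} (hm : 0 < m) (h1 : m ≤ s) (h2 : s + m ≤ Q) :
    Kf Q H s ≤ Q / (4 * H) * ((m : ℝ) ^ 2)⁻¹ := by
  have hQ' : (0 : ℝ) < Q := by exact_mod_cast hQ
  have hH' : (0 : ℝ) < H := by exact_mod_cast hH
  have hm' : (0 : ℝ) < m := by exact_mod_cast hm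
  have h3 := norm_E_sub_one_ge hQ hm h1 h2
  have hne : E Q (s : ℤ) ≠ 1 := by
    intro h
    rw [h, sub_self, norm_zero] at h3
    have : (0 : ℝ) < 4 * ((m : ℝ) / Q) := by positivity
    linarith
  have h4 : D Q H s = (E Q (s : ℤ) ^ H - 1) / (E Q (s : ℤ) - 1) := by
    unfold D
    rw [← geom_sum_eq hne]
    exact sum_congr rfl fun a _ => E_nat_mul _ a
  have h5 : ‖E Q (s : ℤ) ^ H - 1‖ ≤ 2 := by
    refine (norm_sub_le _ _).trans ?_
    rw [norm_pow, norm_E]
    norm_num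
  have h6 : ‖D Q H s‖ ≤ Q / (2 * m) := by
    rw [h4, norm_div]
    have h7 : (0 : ℝ) < 4 * ((m : ℝ) / Q) := by positivity
    calc ‖E Q (s : ℤ) ^ H - 1‖ / ‖E Q (s : ℤ) - 1‖ ≤ 2 / (4 * ((m : ℝ) / Q)) := by
          gcongr
      _ = Q / (2 * m) := by
          field_simp
          norm_num
  unfold Kf
  calc ‖D Q H s‖ ^ 2 / (Q * H) ≤ (Q / (2 * m)) ^ 2 / (Q * H) := by gcongr
    _ = Q / (4 * H) * ((m : ℝ) ^ 2)⁻¹ := by
        field_simp
        norm_num

theorem inv_sq_sum_le {R n : ℕ} (hR : 1 ≤ R) (T : Finset ℕ) (hT : ∀ s ∈ T, R < s ∧ s ≤ n) :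
    ∑ s ∈ T, ((s : ℝ) ^ 2)⁻¹ ≤ 1 / R := by
  rcases T.eq_empty_or_nonempty with rfl | ⟨x, hx⟩
  · simp
  · have hRn : R ≤ n := by
      have := hT x hx
      omega
    have h1 : T ⊆ Ioc R n := fun s hs => mem_Ioc.2 (hT s hs)
    refine (sum_le_sum_of_subset_of_nonneg h1 fun i _ _ => by positivity).trans ?_
    refine (sum_Ioc_inv_sq_le_sub (by omega) hRn).trans ?_
    have : (0 : ℝ) ≤ ((n : ℝ))⁻¹ := by positivity
    rw [one_div]
    linarith

/-- the tail of the Fejér kernel -/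
theorem tail (hQ : 0 < Q) (hH : 0 < H) {R : ℕ} (hR : 1 ≤ R) :
    ∑ s ∈ (range Q).filter (fun s => R < s ∧ s + R < Q), Kf Q H s ≤ Q / (2 * H * R) := by
  have hQ' : (0 : ℝ) < Q := by exact_mod_cast hQ
  have hH' : (0 : ℝ) < H := by exact_mod_cast hH
  have hR' : (0 : ℝ) < R := by exact_mod_cast hR
  set T := (range Q).filter (fun s => R < s ∧ s + R < Q) with hT
  have h1 : ∀ s ∈ T, Kf Q H s ≤ Q / (4 * H) * (((s : ℝ) ^ 2)⁻¹ + (((Q - s : ℕ) : ℝ) ^ 2)⁻¹) := by
    intro s hs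
    rw [hT, mem_filter, mem_range] at hs
    rcases le_total s (Q - s) with h | h
    · refine (Kf_le hQ hH (m := s) (by omega) le_rfl (by omega)).trans ?_
      gcongr
      have : (0 : ℝ) ≤ (((Q - s : ℕ) : ℝ) ^ 2)⁻¹ := by positivity
      linarith
    · refine (Kf_le hQ hH (m := Q - s) (by omega) h (by omega)).trans ?_
      gcongr
      have : (0 : ℝ) ≤ (((s : ℝ)) ^ 2)⁻¹ := by positivity
      linarith
  refine (sum_le_sum h1).trans ?_
  rw [← mul_sum, sum_add_distrib]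
  have h2 : ∑ s ∈ T, ((s : ℝ) ^ 2)⁻¹ ≤ 1 / R := inv_sq_sum_le (n := Q) hR T (by
    intro s hs
    rw [hT, mem_filter, mem_range] at hs
    omega)
  have h3 : ∑ s ∈ T, (((Q - s : ℕ) : ℝ) ^ 2)⁻¹ ≤ 1 / R := by
    have hinj : Set.InjOn (fun s : ℕ => Q - s) (T : Set ℕ) := by
      intro a ha b hb hab
      rw [mem_coe, hT, mem_filter, mem_range] at ha hb
      simp only at hab
      omega
    have h4 := inv_sq_sum_le (n := Q) hR (T.image fun s : ℕ => Q - s) (by
      intro s hs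
      rw [mem_image] at hs
      obtain ⟨x, hx, rfl⟩ := hs
      rw [hT, mem_filter, mem_range] at hx
      omega)
    rw [sum_image hinj] at h4
    exact h4
  calc Q / (4 * H) * (∑ s ∈ T, ((s : ℝ) ^ 2)⁻¹ + ∑ s ∈ T, (((Q - s : ℕ) : ℝ) ^ 2)⁻¹)
      ≤ Q / (4 * H) * (1 / R + 1 / R) := by gcongr
    _ = Q / (2 * H * R) := by
        field_simp
        norm_num

/-- smoothing error -/
theorem smooth (hQ : 0 < Q) (hH : 0 < H) (hHQ : H ≤ Q) {R : ℕ} (hR : 1 ≤ R) (G : ℤ → ℝ) (η : ℝ)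
    (hG1 : ∀ t, |G t| ≤ 1) (hGQ : ∀ t, G (t + Q) = G t)
    (hG : ∀ t u : ℤ, |u| ≤ R → |G (t + u) - G t| ≤ η) (t : ℤ) :
    |G t - ∑ s ∈ range Q, Kf Q H s * G (t + s)| ≤ η + Q / (H * R) := by
  have hQ' : (0 : ℝ) < Q := by exact_mod_cast hQ
  have hH' : (0 : ℝ) < H := by exact_mod_cast hH
  have hR' : (0 : ℝ) < R := by exact_mod_cast hR
  have hη : 0 ≤ η := by
    have := hG 0 0 (by simp)
    simpa using this
  have e1 : G t - ∑ s ∈ range Q, Kf Q H s * G (t + s) =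
      ∑ s ∈ range Q, Kf Q H s * (G t - G (t + s)) := by
    simp only [mul_sub]
    rw [sum_sub_distrib, ← sum_mul, sum_Kf hQ hH hHQ, one_mul]
  rw [e1]
  refine (abs_sum_le_sum_abs _ _).trans ?_
  rw [← sum_filter_add_sum_filter_not (range Q) (fun s => R < s ∧ s + R < Q)]
  have h1 : ∑ s ∈ (range Q).filter (fun s => R < s ∧ s + R < Q),
      |Kf Q H s * (G t - G (t + s))| ≤ 2 * (Q / (2 * H * R)) := by
    refine le_trans ?_ (mul_le_mul_of_nonneg_left (tail hQ hH hR) (by norm_num : (0:ℝ) ≤ 2))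
    rw [mul_sum]
    refine sum_le_sum fun s _ => ?_
    rw [abs_mul, abs_of_nonneg (Kf_nonneg _), mul_comm]
    refine mul_le_mul_of_nonneg_right ?_ (Kf_nonneg _)
    have ha := abs_le.1 (hG1 t)
    have hb := abs_le.1 (hG1 (t + s))
    rw [abs_le]
    constructor <;> linarith
  have h2 : ∑ s ∈ (range Q).filter (fun s => ¬ (R < s ∧ s + R < Q)),
      |Kf Q H s * (G t - G (t + s))| ≤ η := by
    have h3 : ∑ s ∈ (range Q).filter (fun s => ¬ (R < s ∧ s + R < Q)),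
        |Kf Q H s * (G t - G (t + s))| ≤
        ∑ s ∈ (range Q).filter (fun s => ¬ (R < s ∧ s + R < Q)), Kf Q H s * η := by
      refine sum_le_sum fun s hs => ?_
      rw [mem_filter, mem_range, not_and_or] at hs
      rw [abs_mul, abs_of_nonneg (Kf_nonneg _)]
      refine mul_le_mul_of_nonneg_left ?_ (Kf_nonneg _)
      rw [abs_sub_comm]
      rcases hs.2 with h | h
      · refine hG t s ?_
        rw [abs_of_nonneg (by positivity)]
        exact_mod_cast not_lt.1 h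
      · have h4 : G (t + s) = G (t + ((s : ℤ) - Q)) := by
          rw [← hGQ (t + ((s : ℤ) - Q))]
          congr 1
          ring
        rw [h4]
        refine hG t _ ?_
        rw [abs_le]
        constructor <;> omega
    refine h3.trans ?_
    rw [← sum_mul]
    have h5 : ∑ s ∈ (range Q).filter (fun s => ¬ (R < s ∧ s + R < Q)), Kf Q H s ≤ 1 := by
      rw [← sum_Kf hQ hH hHQ]
      exact sum_le_sum_of_subset_of_nonneg (filter_subset _ _) fun i _ _ => Kf_nonneg _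
    calc _ ≤ 1 * η := mul_le_mul_of_nonneg_right h5 hη
      _ = η := one_mul η
  have e2 : 2 * ((Q : ℝ) / (2 * H * R)) = Q / (H * R) := by
    field_simp
  rw [e2] at h1
  linarith

/-- Fourier coefficients (unnormalised) -/
noncomputable def c (Q : ℕ) (G : ℤ → ℝ) (h : ℤ) : ℂ := ∑ s ∈ range Q, E Q (-(h * s)) * (G s : ℂ)

theorem kernel_expand (hQ : 0 < Q) (G : ℤ → ℝ) (hGQ : ∀ t, G (t + Q) = G t) (t : ℤ) :
    ((∑ s ∈ range Q, ‖D Q H s‖ ^ 2 * G (t + s) : ℝ) : ℂ) =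
      ∑ a ∈ range H, ∑ b ∈ range H, E Q (((b : ℤ) - a) * t) * c Q G ((b : ℤ) - a) := by
  have hn : ∀ z : ℂ, ((‖z‖ ^ 2 : ℝ) : ℂ) = z * (starRingEnd ℂ) z := by
    intro z
    rw [Complex.mul_conj, Complex.normSq_eq_norm_sq]
  rw [Complex.ofReal_sum]
  simp only [Complex.ofReal_mul, hn]
  have h1 : ∀ s : ℕ, D Q H (s : ℤ) * (starRingEnd ℂ) (D Q H (s : ℤ)) =
      ∑ a ∈ range H, ∑ b ∈ range H, E Q (((a : ℤ) - b) * s) := by
    intro s
    unfold D
    rw [map_sum, sum_mul_sum]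
    refine sum_congr rfl fun a _ => sum_congr rfl fun b _ => ?_
    rw [conj_E, ← E_add]
    congr 1
    ring
  simp only [h1, sum_mul]
  rw [sum_comm]
  refine sum_congr rfl fun a _ => ?_
  rw [sum_comm]
  refine sum_congr rfl fun b _ => ?_
  unfold c
  rw [mul_sum]
  have h2 := shift_sum (Q := Q) (fun u : ℤ => E Q (((a : ℤ) - b) * u) * (G u : ℂ)) (by
    intro u
    rw [hGQ, mul_add, E_add, E_eq_one_of_dvd hQ (Dvd.intro_left _ rfl), mul_one]) t
  have h3 : ∑ s ∈ range Q, E Q (((a : ℤ) - b) * s) * (G (t + s) : ℂ) =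
      ∑ s ∈ range Q, E Q (((b : ℤ) - a) * t) * (E Q (((a : ℤ) - b) * (t + s)) * (G (t + s) : ℂ)) := by
    refine sum_congr rfl fun s _ => ?_
    rw [← mul_assoc, ← E_add]
    congr 2
    ring
  rw [h3, ← mul_sum, h2, mul_sum]
  refine sum_congr rfl fun s _ => ?_
  congr 3
  ring

/-- Bessel -/
theorem bessel (hQ : 0 < Q) (hHQ : H ≤ Q) (G : ℤ → ℝ) (hG1 : ∀ t, |G t| ≤ 1) (a : ℕ) :
    ∑ b ∈ range H, ‖c Q G ((b : ℤ) - a)‖ ^ 2 ≤ (Q : ℝ) ^ 2 := by
  have hQ' : (0 : ℝ) < Q := by exact_mod_cast hQ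
  have h1 : ∑ b ∈ range H, ‖c Q G ((b : ℤ) - a)‖ ^ 2 ≤
      ∑ b ∈ range Q, ‖c Q G ((b : ℤ) - a)‖ ^ 2 :=
    sum_le_sum_of_subset_of_nonneg (range_subset_range.2 hHQ) fun i _ _ => by positivity
  refine h1.trans ?_
  have h2 : ∀ b : ℕ, ‖c Q G ((b : ℤ) - a)‖ =
      ‖∑ s ∈ range Q, E Q ((b : ℤ) * s) * (E Q (-((a : ℤ) * s)) * (G s : ℂ))‖ := by
    intro b
    rw [← Complex.norm_conj]
    congr 1
    unfold c
    rw [map_sum]
    refine sum_congr rfl fun s _ => ?_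
    rw [map_mul, conj_E, Complex.conj_ofReal, ← mul_assoc, ← E_add]
    congr 2
    ring
  simp only [h2]
  rw [parseval hQ]
  have h3 : ∑ s ∈ range Q, ‖E Q (-((a : ℤ) * s)) * (G s : ℂ)‖ ^ 2 ≤ ∑ s ∈ range Q, (1 : ℝ) := by
    refine sum_le_sum fun s _ => ?_
    rw [norm_mul, norm_E, one_mul, Complex.norm_real, Real.norm_eq_abs]
    have := hG1 s
    have := abs_nonneg (G s)
    nlinarith
  rw [sum_const, card_range, nsmul_eq_mul, mul_one] at h3
  calc (Q : ℝ) * ∑ s ∈ range Q, ‖E Q (-((a : ℤ) * s)) * (G s : ℂ)‖ ^ 2 ≤ Q * Q := by gcongr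
    _ = (Q : ℝ) ^ 2 := by ring

theorem sum_inj_le {g : ℕ → ℝ} (hg : ∀ n, 0 ≤ g n) (T U : Finset ℕ) (f : ℕ → ℕ)
    (hinj : Set.InjOn f (T : Set ℕ)) (hmap : ∀ x ∈ T, f x ∈ U) :
    ∑ x ∈ T, g (f x) ≤ ∑ y ∈ U, g y := by
  rw [← sum_image hinj]
  exact sum_le_sum_of_subset_of_nonneg (image_subset_iff.2 hmap) fun i _ _ => hg i

theorem offdiag (g : ℤ → ℝ) (hg : ∀ n, 0 ≤ g n) (hsym : ∀ n, g (-n) = g n) {a : ℕ}
    (ha : a < H) :
    ∑ b ∈ (range H).erase a, g ((b : ℤ) - a) ≤ 2 * ∑ h ∈ Icc 1 H, g (h : ℤ) := by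
  have h1 : (range H).erase a = (range H).filter (fun b => b < a) ∪
      (range H).filter (fun b => a < b) := by
    ext b
    simp only [mem_erase, mem_range, mem_union, mem_filter]
    omega
  rw [h1, sum_union (by
    rw [disjoint_left]
    intro b hb hb'
    simp only [mem_filter] at hb hb'
    omega)]
  have h2 : ∑ b ∈ (range H).filter (fun b => b < a), g ((b : ℤ) - a) ≤ ∑ h ∈ Icc 1 H, g (h : ℤ) := by
    have h3 := sum_inj_le (g := fun n : ℕ => g (n : ℤ)) (fun n => hg n)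
      ((range H).filter (fun b => b < a)) (Icc 1 H) (fun b => a - b) (by
        intro x hx y hy hxy
        simp only [coe_filter, mem_range, Set.mem_ofPred_eq] at hx hy
        simp only at hxy
        omega) (by
        intro x hx
        simp only [mem_filter, mem_range] at hx
        rw [mem_Icc]
        omega)
    refine le_trans (le_of_eq ?_) h3
    refine sum_congr rfl fun b hb => ?_
    simp only [mem_filter, mem_range] at hb
    rw [← hsym]
    congr 1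
    push_cast [Nat.cast_sub hb.2.le]
    ring
  have h4 : ∑ b ∈ (range H).filter (fun b => a < b), g ((b : ℤ) - a) ≤ ∑ h ∈ Icc 1 H, g (h : ℤ) := by
    have h3 := sum_inj_le (g := fun n : ℕ => g (n : ℤ)) (fun n => hg n)
      ((range H).filter (fun b => a < b)) (Icc 1 H) (fun b => b - a) (by
        intro x hx y hy hxy
        simp only [coe_filter, mem_range, Set.mem_ofPred_eq] at hx hy
        simp only at hxy
        omega) (by
        intro x hx
        simp only [mem_filter, mem_range] at hx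
        rw [mem_Icc]
        omega)
    refine le_trans (le_of_eq ?_) h3
    refine sum_congr rfl fun b hb => ?_
    simp only [mem_filter, mem_range] at hb
    congr 1
    push_cast [Nat.cast_sub hb.2.le]
    ring
  linarith

theorem main_bound (hQ : 0 < Q) (hH : 0 < H) (hHQ : H ≤ Q) (G : ℤ → ℝ)
    (hG1 : ∀ t, |G t| ≤ 1) (hGQ : ∀ t, G (t + Q) = G t) (K : ℕ) (t : ℕ → ℤ) :
    |∑ k ∈ range K, ∑ s ∈ range Q, Kf Q H s * G (t k + s)| ≤
      K * (|∑ s ∈ range Q, G s| / Q) +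
        Real.sqrt (2 * ∑ h ∈ Icc 1 H, ‖∑ k ∈ range K, E Q ((h : ℤ) * t k)‖ ^ 2) := by
  have hQ' : (0 : ℝ) < Q := by exact_mod_cast hQ
  have hH' : (0 : ℝ) < H := by exact_mod_cast hH
  set Sh : ℤ → ℂ := fun h => ∑ k ∈ range K, E Q (h * t k) with hSh
  have hsym : ∀ h : ℤ, ‖Sh (-h)‖ ^ 2 = ‖Sh h‖ ^ 2 := by
    intro h
    have : Sh (-h) = (starRingEnd ℂ) (Sh h) := by
      simp only [hSh]
      rw [map_sum]
      refine sum_congr rfl fun k _ => ?_
      rw [conj_E]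
      congr 1
      ring
    rw [this, Complex.norm_conj]
  set B : ℝ := Real.sqrt (2 * ∑ h ∈ Icc 1 H, ‖Sh (h : ℤ)‖ ^ 2) with hB
  -- the sum as a double sum
  have e1 : ((∑ k ∈ range K, ∑ s ∈ range Q, Kf Q H s * G (t k + s) : ℝ) : ℂ) =
      (1 / (Q * H) : ℂ) * ∑ a ∈ range H, ∑ b ∈ range H, c Q G ((b : ℤ) - a) * Sh ((b : ℤ) - a) := by
    have h1 : ∀ k, ((∑ s ∈ range Q, Kf Q H s * G (t k + s) : ℝ) : ℂ) = (1 / (Q * H) : ℂ) *
        ∑ a ∈ range H, ∑ b ∈ range H, E Q (((b : ℤ) - a) * t k) * c Q G ((b : ℤ) - a) := by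
      intro k
      rw [← kernel_expand hQ G hGQ (t k)]
      have h2 : ∑ s ∈ range Q, Kf Q H s * G (t k + s) =
          (1 / (Q * H)) * ∑ s ∈ range Q, ‖D Q H s‖ ^ 2 * G (t k + s) := by
        rw [mul_sum]
        refine sum_congr rfl fun s _ => ?_
        unfold Kf
        ring
      rw [h2]
      push_cast
      ring
    rw [Complex.ofReal_sum]
    simp only [h1]
    rw [← mul_sum, sum_comm]
    congr 1
    refine sum_congr rfl fun a _ => ?_
    rw [sum_comm]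
    refine sum_congr rfl fun b _ => ?_
    simp only [hSh]
    rw [mul_sum]
    exact sum_congr rfl fun k _ => mul_comm _ _
  have e2 : |∑ k ∈ range K, ∑ s ∈ range Q, Kf Q H s * G (t k + s)| =
      ‖((∑ k ∈ range K, ∑ s ∈ range Q, Kf Q H s * G (t k + s) : ℝ) : ℂ)‖ := by
    rw [Complex.norm_real, Real.norm_eq_abs]
  rw [e2, e1, norm_mul]
  have e3 : ‖(1 / (Q * H) : ℂ)‖ = 1 / (Q * H) := by
    rw [norm_div, norm_one, norm_mul, Complex.norm_natCast, Complex.norm_natCast]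
  rw [e3]
  -- row bound
  have hrow : ∀ a ∈ range H, ‖∑ b ∈ range H, c Q G ((b : ℤ) - a) * Sh ((b : ℤ) - a)‖ ≤
      |∑ s ∈ range Q, G s| * K + Q * B := by
    intro a ha
    rw [← add_sum_erase _ _ ha]
    refine (norm_add_le _ _).trans (add_le_add ?_ ?_)
    · rw [sub_self, norm_mul]
      have h1 : c Q G 0 = ((∑ s ∈ range Q, G s : ℝ) : ℂ) := by
        unfold c
        simp [E_zero]
      have h2 : Sh 0 = K := by
        simp only [hSh]
        simp [E_zero]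
      rw [h1, h2, Complex.norm_real, Real.norm_eq_abs, Complex.norm_natCast]
    · refine (norm_sum_le _ _).trans ?_
      simp only [norm_mul]
      refine (Real.sum_mul_le_sqrt_mul_sqrt _ _ _).trans ?_
      have h1 : Real.sqrt (∑ b ∈ (range H).erase a, ‖c Q G ((b : ℤ) - a)‖ ^ 2) ≤ Q := by
        rw [show (Q : ℝ) = Real.sqrt ((Q : ℝ) ^ 2) from (Real.sqrt_sq hQ'.le).symm]
        apply Real.sqrt_le_sqrt
        refine le_trans ?_ (bessel hQ hHQ G hG1 a)
        exact sum_le_sum_of_subset_of_nonneg (erase_subset _ _) fun i _ _ => by positivity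
      have h2 : Real.sqrt (∑ b ∈ (range H).erase a, ‖Sh ((b : ℤ) - a)‖ ^ 2) ≤ B := by
        rw [hB]
        apply Real.sqrt_le_sqrt
        exact offdiag (fun n => ‖Sh n‖ ^ 2) (fun n => by positivity) hsym (mem_range.1 ha)
      exact mul_le_mul h1 h2 (Real.sqrt_nonneg _) hQ'.le
  have h4 : ‖∑ a ∈ range H, ∑ b ∈ range H, c Q G ((b : ℤ) - a) * Sh ((b : ℤ) - a)‖ ≤
      H * (|∑ s ∈ range Q, G s| * K + Q * B) := by
    refine (norm_sum_le _ _).trans ?_
    refine (sum_le_sum hrow).trans ?_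
    rw [sum_const, card_range, nsmul_eq_mul]
  calc (1 / (Q * H) : ℝ) * ‖∑ a ∈ range H, ∑ b ∈ range H, c Q G ((b : ℤ) - a) * Sh ((b : ℤ) - a)‖
      ≤ (1 / (Q * H) : ℝ) * (H * (|∑ s ∈ range Q, G s| * K + Q * B)) := by gcongr
    _ = K * (|∑ s ∈ range Q, G s| / Q) + B := by
        field_simp

end Pool.Agent.R286.CU.F

namespace Pool.Agent.R286.CU

open Finset

theorem stF : StF := by
  intro Q H R hH hHQ hR G η hG1 hGQ hG K t
  have hQ : 0 < Q := by omega
  have hHQ' : H ≤ Q := by omega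
  have h1 := F.main_bound hQ hH hHQ' G hG1 hGQ K t
  have h2 : |∑ k ∈ range K, (G (t k) - ∑ s ∈ range Q, F.Kf Q H s * G (t k + s))| ≤
      K * (η + Q / (H * R)) := by
    refine (abs_sum_le_sum_abs _ _).trans ?_
    refine (sum_le_sum fun k _ => F.smooth hQ hH hHQ' hR G η hG1 hGQ hG (t k)).trans ?_
    rw [sum_const, card_range, nsmul_eq_mul]
  have e1 : ∑ k ∈ range K, G (t k) =
      ∑ k ∈ range K, (G (t k) - ∑ s ∈ range Q, F.Kf Q H s * G (t k + s)) +
      ∑ k ∈ range K, ∑ s ∈ range Q, F.Kf Q H s * G (t k + s) := by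
    rw [sum_sub_distrib]
    ring
  have e2 : ∀ h : ℕ, ∑ k ∈ range K, e ((h : ℝ) * ((t k : ℤ) : ℝ) / (Q : ℝ)) =
      ∑ k ∈ range K, F.E Q ((h : ℤ) * t k) := by
    intro h
    refine sum_congr rfl fun k _ => ?_
    unfold F.E
    congr 1
    push_cast
    ring
  simp only [e2]
  rw [e1]
  refine (abs_add_le _ _).trans ?_
  have e3 : (K : ℝ) * (η + (Q : ℝ) / ((H : ℝ) * R) + |∑ s ∈ range Q, G s| / (Q : ℝ)) =
      K * (η + Q / (H * R)) + K * (|∑ s ∈ range Q, G s| / Q) := by ring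
  rw [e3]
  linarith

end Pool.Agent.R286.CU
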