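import Pool.Agent.R286.CU.Stm

/-!
Part KL: Kusmin-Landau on progressions modulo the small number `q`.
-/

set_option autoImplicit false

namespace Pool.Agent.R286.CU

open Finset

theorem klx_e_add_nat (x : ℝ) (n : ℕ) : e (x + n) = e x := by
  show Pool.Agent.H469R2.NK.e (x + n) = Pool.Agent.H469R2.NK.e x
  rw [Pool.Agent.H469R2.NK.e_add, Pool.Agent.H469R2.NK.e_nat, mul_one]

/-- Kusmin-Landau on the set of indices with increment in `[n + D, n + 1 - D]` -/
theorem klx_set (x : ℕ → ℝ) (hmono : ∀ i j, i ≤ j → x (i + 1) - x i ≤ x (j + 1) - x j)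
    (n : ℕ) (D : ℝ) (hD : 0 < D) (N : ℕ) (J : Finset ℕ)
    (hJ : ∀ j, j ∈ J ↔ j < N ∧ (n : ℝ) + D ≤ x (j + 1) - x j ∧ x (j + 1) - x j ≤ n + 1 - D) :
    ‖∑ j ∈ J, e (x j)‖ ≤ 2 / D := by
  rcases J.eq_empty_or_nonempty with h0 | hne
  · subst h0
    simp only [sum_empty, norm_zero]
    positivity
  · set a := J.min' hne with ha
    set b := J.max' hne with hb
    have haJ : a ∈ J := J.min'_mem hne
    have hbJ : b ∈ J := J.max'_mem hne
    have hab : a ≤ b := J.min'_le _ hbJ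
    have hIco : J = Ico a (b + 1) := by
      ext j
      rw [Finset.mem_Ico]
      constructor
      · intro hj
        exact ⟨J.min'_le _ hj, Nat.lt_succ_of_le (J.le_max' _ hj)⟩
      · rintro ⟨h1, h2⟩
        have h2' : j ≤ b := by omega
        have h3 := (hJ a).1 haJ
        have h4 := (hJ b).1 hbJ
        rw [hJ]
        refine ⟨by omega, ?_, ?_⟩
        · exact h3.2.1.trans (hmono a j h1)
        · exact (hmono j b h2').trans h4.2.2
    rw [hIco, Finset.sum_Ico_eq_sum_range]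
    have hmem : ∀ t, t < b + 1 - a → (n : ℝ) + D ≤ x (a + t + 1) - x (a + t) ∧
        x (a + t + 1) - x (a + t) ≤ n + 1 - D := by
      intro t ht
      have : a + t ∈ J := by
        rw [hIco, Finset.mem_Ico]
        omega
      exact ((hJ _).1 this).2
    have hkl := Pool.Agent.H469R2.NK.kusmin_landau_mono
      (fun t => x (a + t) - (n : ℝ) * t) (b + 1 - a) hD
      (by
        intro t ht
        have := (hmem t ht).1
        have e1 : a + (t + 1) = a + t + 1 := by ring
        simp only [e1]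
        push_cast
        linarith)
      (by
        intro t ht
        have := (hmem t ht).2
        have e1 : a + (t + 1) = a + t + 1 := by ring
        simp only [e1]
        push_cast
        linarith)
      (by
        intro t ht
        have := hmono (a + t) (a + (t + 1)) (by omega)
        have e1 : a + (t + 1) = a + t + 1 := by ring
        have e2 : a + (t + 2) = a + t + 1 + 1 := by ring
        simp only [e1] at this
        simp only [e1, e2]
        push_cast
        linarith)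
    have heq : ∑ k ∈ range (b + 1 - a), e (x (a + k)) =
        ∑ k ∈ range (b + 1 - a), e (x (a + k) - (n : ℝ) * k) := by
      refine Finset.sum_congr rfl (fun k _ => ?_)
      rw [← klx_e_add_nat (x (a + k) - (n : ℝ) * k) (n * k)]
      congr 1
      push_cast
      ring
    rw [heq]
    exact hkl

/-- counting lemma -/
theorem klx_count (φ : ℕ → ℝ) (S : Finset ℕ) (c D δ : ℝ) (hD : 0 ≤ D) (hδ : 0 < δ)
    (hS : ∀ i ∈ S, |φ i - c| < D)
    (hinc : ∀ i ∈ S, ∀ j ∈ S, i ≤ j → δ * ((j : ℝ) - i) ≤ φ j - φ i) :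
    (S.card : ℝ) ≤ 1 + 2 * D / δ := by
  rcases S.eq_empty_or_nonempty with h0 | hne
  · subst h0
    simp only [card_empty, Nat.cast_zero]
    positivity
  · set a := S.min' hne with ha
    set b := S.max' hne with hb
    have haJ : a ∈ S := S.min'_mem hne
    have hbJ : b ∈ S := S.max'_mem hne
    have hab : a ≤ b := S.min'_le _ hbJ
    have hsub : S ⊆ Icc a b := by
      intro j hj
      rw [Finset.mem_Icc]
      exact ⟨S.min'_le _ hj, S.le_max' _ hj⟩
    have hcard := Finset.card_le_card hsub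
    rw [Nat.card_Icc] at hcard
    have h1 := hinc a haJ b hbJ hab
    have h2 := hS a haJ
    have h3 := hS b hbJ
    rw [abs_lt] at h2 h3
    have h4 : δ * ((b : ℝ) - a) ≤ 2 * D := by linarith [h2.1, h2.2, h3.1, h3.2]
    have h5 : (b : ℝ) - a ≤ 2 * D / δ := by
      rw [le_div_iff₀ hδ]
      linarith
    have h6 : (S.card : ℝ) ≤ (b : ℝ) - a + 1 := by
      have h7 : S.card + a ≤ b + 1 := by omega
      have h8 : (S.card : ℝ) + a ≤ b + 1 := by exact_mod_cast h7
      linarith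
    linarith

/-- the increments -/
noncomputable def klx_phx (h P q : ℕ) (i : ℕ) : ℝ :=
  (h : ℝ) / P * (3 * (i : ℝ) ^ 2 + 3 * i * q + (q : ℝ) ^ 2)

/-- the cubic phase along a progression -/
noncomputable def klx_xx (h P q r : ℕ) (j : ℕ) : ℝ :=
  (h : ℝ) * ((r : ℝ) + q * j) ^ 3 / (q * P)

theorem klx_xx_inc (h P q r j : ℕ) (hP : 1 ≤ P) (hq : 1 ≤ q) :
    klx_xx h P q r (j + 1) - klx_xx h P q r j = klx_phx h P q (r + q * j) := by
  have hP' : (P : ℝ) ≠ 0 := by positivity
  have hq' : (q : ℝ) ≠ 0 := by positivity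
  unfold klx_xx klx_phx
  push_cast
  field_simp
  ring

theorem klx_phx_mono (h P q : ℕ) {i j : ℕ} (hij : i ≤ j) : klx_phx h P q i ≤ klx_phx h P q j := by
  unfold klx_phx
  have hij' : (i : ℝ) ≤ j := by exact_mod_cast hij
  apply mul_le_mul_of_nonneg_left _ (by positivity)
  have h1 : (i : ℝ) ^ 2 ≤ (j : ℝ) ^ 2 := by gcongr
  have h2 : 3 * (i : ℝ) * q ≤ 3 * j * q := by gcongr
  linarith

theorem klx_phase_eq (h P q κ k r j : ℕ) (hP : 1 ≤ P) (hq : 1 ≤ q) (hk : κ * q = 1 + k * P) :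
    e ((h : ℝ) * ((κ : ℝ) * ((r + q * j : ℕ) : ℝ) ^ 3 / (P : ℝ))) =
      e ((h : ℝ) * k * (r : ℝ) ^ 3 / q) * e (klx_xx h P q r j) := by
  have hP' : (P : ℝ) ≠ 0 := by positivity
  have hq' : (q : ℝ) ≠ 0 := by positivity
  have hk' : (κ : ℝ) * q = 1 + k * P := by exact_mod_cast hk
  rw [← Pool.Agent.H469R2.NK.e_add]
  refine Eq.trans ?_ (klx_e_add_nat ((h : ℝ) * k * (r : ℝ) ^ 3 / q + klx_xx h P q r j)
    (h * k * (j * ((r + q * j) ^ 2 + (r + q * j) * r + r ^ 2))))
  congr 1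
  unfold klx_xx
  have hκ : (κ : ℝ) = (1 + k * P) / q := by
    rw [eq_div_iff hq']
    exact hk'
  rw [hκ]
  push_cast
  field_simp
  ring

theorem klx_core (P q κ N h : ℕ) (hP : 1 ≤ P) (hq : 1 ≤ q) (hκ : κ * q % P = 1) (hh : 1 ≤ h)
    (hqN : q ≤ N) (D : ℝ) (hD : 0 < D) (hD2 : D ≤ 1 / 2)
    (hsmall : 7 * (h : ℝ) * (q : ℝ) ^ 2 / P < 1 / 2) (m : ℕ)
    (hm : 7 * (h : ℝ) * (N : ℝ) ^ 2 / P + 1 < m) :
    ‖S h κ P 0 0 N‖ ≤ Real.sqrt (D * P / h) + 1 + m * (1 + 2 * D * Real.sqrt (P / h)) +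
      q * m * (2 / D) := by
  classical
  have hPr : (0 : ℝ) < P := by exact_mod_cast hP
  have hqr : (0 : ℝ) < q := by exact_mod_cast hq
  have hhr : (0 : ℝ) < h := by exact_mod_cast hh
  obtain ⟨k, hk⟩ : ∃ k, κ * q = 1 + k * P := by
    refine ⟨κ * q / P, ?_⟩
    have h1 := Nat.div_add_mod (κ * q) P
    have h2 : P * (κ * q / P) = κ * q / P * P := mul_comm _ _
    omega
  set F : ℕ → ℂ := fun i => e ((h : ℝ) * ((κ : ℝ) * (i : ℝ) ^ 3 / (P : ℝ))) with hF
  have hS : S h κ P 0 0 N = ∑ i ∈ range N, F i := by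
    unfold S
    refine Finset.sum_congr rfl (fun i _ => ?_)
    rw [hF]
    simp
  set φ : ℕ → ℝ := klx_phx h P q with hφ
  have hφ0 : ∀ i, 0 ≤ φ i := by
    intro i
    rw [hφ]
    unfold klx_phx
    positivity
  have hφle : ∀ i j : ℕ, i ≤ j → q ≤ j → φ i ≤ 7 * (h : ℝ) * (j : ℝ) ^ 2 / P := by
    intro i j hij hqj
    refine (klx_phx_mono h P q hij).trans ?_
    unfold klx_phx
    have hqj' : (q : ℝ) ≤ j := by exact_mod_cast hqj
    have h1 : (q : ℝ) ^ 2 ≤ (j : ℝ) ^ 2 := by gcongr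
    have h2 : (j : ℝ) * q ≤ (j : ℝ) ^ 2 := by
      rw [sq]
      gcongr
    have h3 : 3 * (j : ℝ) ^ 2 + 3 * j * q + (q : ℝ) ^ 2 ≤ 7 * (j : ℝ) ^ 2 := by nlinarith
    calc (h : ℝ) / P * (3 * (j : ℝ) ^ 2 + 3 * j * q + (q : ℝ) ^ 2)
        ≤ (h : ℝ) / P * (7 * (j : ℝ) ^ 2) := by
          apply mul_le_mul_of_nonneg_left h3 (by positivity)
      _ = 7 * (h : ℝ) * (j : ℝ) ^ 2 / P := by ring
  have hφN : ∀ i, i < N → φ i + 1 < m := by
    intro i hi
    have := hφle i N hi.le hqN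
    linarith
  -- good and bad indices
  set good : ℕ → Prop := fun i => ((⌊φ i⌋₊ : ℕ) : ℝ) + D ≤ φ i ∧ φ i ≤ (⌊φ i⌋₊ : ℕ) + 1 - D
    with hgood
  rw [hS, ← Finset.sum_filter_add_sum_filter_not (range N) good]
  refine (norm_add_le _ _).trans ?_
  -- the good part
  have hgoodpart : ‖∑ i ∈ (range N).filter good, F i‖ ≤ q * m * (2 / D) := by
    have hmaps : ∀ i ∈ (range N).filter good, (i % q, ⌊φ i⌋₊) ∈ range q ×ˢ range m := by
      intro i hi
      rw [Finset.mem_filter, Finset.mem_range] at hi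
      rw [Finset.mem_product, Finset.mem_range, Finset.mem_range]
      refine ⟨Nat.mod_lt _ hq, ?_⟩
      have h1 := hφN i hi.1
      have h2 := Nat.floor_le (hφ0 i)
      have h3 : ((⌊φ i⌋₊ : ℕ) : ℝ) < m := by linarith
      exact_mod_cast h3
    rw [← Finset.sum_fiberwise_of_maps_to hmaps]
    refine (norm_sum_le _ _).trans ?_
    have hfib : ∀ y ∈ range q ×ˢ range m,
        ‖∑ i ∈ ((range N).filter good).filter (fun i => (i % q, ⌊φ i⌋₊) = y), F i‖ ≤ 2 / D := by
      rintro ⟨r, n⟩ hy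
      rw [Finset.mem_product, Finset.mem_range, Finset.mem_range] at hy
      obtain ⟨hr, -⟩ := hy
      simp only at hr
      set J : Finset ℕ := (range N).filter (fun j => r + q * j < N ∧ (n : ℝ) + D ≤ φ (r + q * j) ∧
        φ (r + q * j) ≤ n + 1 - D) with hJ
      have hmodr : ∀ j, (r + q * j) % q = r := by
        intro j
        rw [Nat.add_mul_mod_self_left, Nat.mod_eq_of_lt hr]
      have hsum : ∑ i ∈ ((range N).filter good).filter (fun i => (i % q, ⌊φ i⌋₊) = (r, n)), F i =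
          ∑ j ∈ J, F (r + q * j) := by
        refine Finset.sum_nbij' (fun i => i / q) (fun j => r + q * j) ?_ ?_ ?_ ?_ ?_
        · intro i hi
          rw [Finset.mem_filter, Finset.mem_filter, Finset.mem_range, Prod.mk.injEq] at hi
          obtain ⟨⟨h1, h2⟩, h3, h4⟩ := hi
          have h5 : r + q * (i / q) = i := by
            rw [← h3]
            exact Nat.mod_add_div i q
          rw [hJ, Finset.mem_filter, Finset.mem_range, h5]
          obtain ⟨h6, h7⟩ := h2
          rw [h4] at h6 h7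
          exact ⟨lt_of_le_of_lt (Nat.div_le_self i q) h1, h1, h6, h7⟩
        · intro j hj
          rw [hJ, Finset.mem_filter, Finset.mem_range] at hj
          obtain ⟨-, h1, h2, h3⟩ := hj
          have h4 : ⌊φ (r + q * j)⌋₊ = n := by
            rw [Nat.floor_eq_iff (hφ0 _)]
            constructor <;> linarith
          rw [Finset.mem_filter, Finset.mem_filter, Finset.mem_range, Prod.mk.injEq]
          refine ⟨⟨h1, ?_, ?_⟩, hmodr j, h4⟩
          · rw [h4]; exact h2
          · rw [h4]; exact h3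
        · intro i hi
          rw [Finset.mem_filter, Finset.mem_filter, Finset.mem_range, Prod.mk.injEq] at hi
          obtain ⟨⟨h1, h2⟩, h3, h4⟩ := hi
          rw [← h3]
          exact Nat.mod_add_div i q
        · intro j _
          have h1 : r + q * j = q * j + r := add_comm _ _
          show (r + q * j) / q = j
          rw [h1, Nat.mul_add_div hq, Nat.div_eq_of_lt hr, add_zero]
        · intro i hi
          rw [Finset.mem_filter, Finset.mem_filter, Finset.mem_range, Prod.mk.injEq] at hi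
          obtain ⟨⟨h1, h2⟩, h3, h4⟩ := hi
          have h5 : r + q * (i / q) = i := by
            rw [← h3]
            exact Nat.mod_add_div i q
          rw [h5]
      rw [hsum]
      have hfac : ∑ j ∈ J, F (r + q * j) =
          e ((h : ℝ) * k * (r : ℝ) ^ 3 / q) * ∑ j ∈ J, e (klx_xx h P q r j) := by
        rw [Finset.mul_sum]
        refine Finset.sum_congr rfl (fun j _ => ?_)
        exact klx_phase_eq h P q κ k r j hP hq hk
      rw [hfac, norm_mul, Pool.Agent.H469R2.NK.norm_e, one_mul]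
      -- the bound for j
      obtain ⟨N', hN'⟩ : ∃ N', ∀ j, j < N' ↔ r + q * j < N := by
        refine ⟨(N - r + q - 1) / q, fun j => ?_⟩
        rw [Nat.lt_div_iff_mul_lt hq]
        have : j * q = q * j := mul_comm _ _
        rw [this]
        omega
      apply klx_set (klx_xx h P q r) _ n D hD N' J
      · intro j
        rw [hJ, Finset.mem_filter, Finset.mem_range, klx_xx_inc h P q r j hP hq, hN']
        constructor
        · rintro ⟨-, h1, h2, h3⟩
          exact ⟨h1, h2, h3⟩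
        · rintro ⟨h1, h2, h3⟩
          refine ⟨?_, h1, h2, h3⟩
          have : j ≤ q * j := Nat.le_mul_of_pos_left j hq
          omega
      · intro i j hij
        rw [klx_xx_inc h P q r i hP hq, klx_xx_inc h P q r j hP hq]
        apply klx_phx_mono
        have : q * i ≤ q * j := Nat.mul_le_mul_left q hij
        omega
    refine (Finset.sum_le_sum hfib).trans ?_
    rw [Finset.sum_const, Finset.card_product, Finset.card_range, Finset.card_range,
      nsmul_eq_mul]
    push_cast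
    exact le_rfl
  -- the bad part
  have hbadpart : ‖∑ i ∈ (range N).filter (fun i => ¬ good i), F i‖ ≤
      Real.sqrt (D * P / h) + 1 + m * (1 + 2 * D * Real.sqrt (P / h)) := by
    have h1 : ‖∑ i ∈ (range N).filter (fun i => ¬ good i), F i‖ ≤
        (((range N).filter (fun i => ¬ good i)).card : ℝ) := by
      refine (norm_sum_le _ _).trans ?_
      rw [Finset.sum_congr rfl (fun i _ => Pool.Agent.H469R2.NK.norm_e _)]
      simp
    refine h1.trans ?_
    set Bad : ℕ → Finset ℕ := fun n => (range N).filter (fun i => |φ i - n| < D) with hBad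
    have hm1 : 1 ≤ m := by
      have h2 : (0 : ℝ) < m := by
        have : 0 ≤ 7 * (h : ℝ) * (N : ℝ) ^ 2 / P := by positivity
        linarith
      exact_mod_cast h2
    have hsub : (range N).filter (fun i => ¬ good i) ⊆ (range m).biUnion Bad := by
      intro i hi
      rw [Finset.mem_filter, Finset.mem_range] at hi
      obtain ⟨hiN, hig⟩ := hi
      rw [Finset.mem_biUnion]
      have h2 := hφN i hiN
      have h3 := Nat.floor_le (hφ0 i)
      have h4 := Nat.lt_floor_add_one (φ i)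
      have h5 : ⌊φ i⌋₊ + 1 < m := by
        have : ((⌊φ i⌋₊ + 1 : ℕ) : ℝ) < m := by push_cast; linarith
        exact_mod_cast this
      by_cases h6 : ((⌊φ i⌋₊ : ℕ) : ℝ) + D ≤ φ i
      · have h7 : ¬ (φ i ≤ (⌊φ i⌋₊ : ℕ) + 1 - D) := fun h7 => hig ⟨h6, h7⟩
        refine ⟨⌊φ i⌋₊ + 1, Finset.mem_range.2 h5, ?_⟩
        rw [hBad]
        simp only [Finset.mem_filter, Finset.mem_range]
        refine ⟨hiN, ?_⟩
        rw [abs_lt]
        push_cast
        push Not at h7
        constructor <;> linarith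
      · refine ⟨⌊φ i⌋₊, Finset.mem_range.2 (by omega), ?_⟩
        rw [hBad]
        simp only [Finset.mem_filter, Finset.mem_range]
        refine ⟨hiN, ?_⟩
        rw [abs_lt]
        push Not at h6
        constructor <;> linarith
    have h0card : ((Bad 0).card : ℝ) ≤ Real.sqrt (D * P / h) + 1 := by
      have h2 : Bad 0 ⊆ range (⌊Real.sqrt (D * P / h)⌋₊ + 1) := by
        intro i hi
        rw [hBad] at hi
        simp only [Finset.mem_filter, Finset.mem_range, Nat.cast_zero, sub_zero] at hi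
        obtain ⟨-, hi2⟩ := hi
        rw [abs_of_nonneg (hφ0 i)] at hi2
        rw [Finset.mem_range, Nat.lt_succ_iff]
        apply Nat.le_floor
        apply Real.le_sqrt_of_sq_le
        rw [le_div_iff₀ hhr]
        have h3 : (h : ℝ) / P * (i : ℝ) ^ 2 ≤ φ i := by
          rw [hφ]
          unfold klx_phx
          apply mul_le_mul_of_nonneg_left _ (by positivity)
          have : (0 : ℝ) ≤ 3 * i * q := by positivity
          nlinarith [sq_nonneg (i : ℝ), sq_nonneg (q : ℝ)]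
        have h4 : (h : ℝ) / P * (i : ℝ) ^ 2 ≤ D := h3.trans hi2.le
        rw [div_mul_eq_mul_div, div_le_iff₀ hPr] at h4
        linarith
      have h3 := Finset.card_le_card h2
      rw [Finset.card_range] at h3
      have h4 : ((Bad 0).card : ℝ) ≤ ((⌊Real.sqrt (D * P / h)⌋₊ + 1 : ℕ) : ℝ) := by
        exact_mod_cast h3
      push_cast at h4
      have h5 := Nat.floor_le (Real.sqrt_nonneg (D * P / h))
      linarith
    have hncard : ∀ n, 1 ≤ n → ((Bad n).card : ℝ) ≤ 1 + 2 * D * Real.sqrt (P / h) := by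
      intro n hn
      have hδ : 0 < Real.sqrt (h / P) := Real.sqrt_pos.2 (by positivity)
      have h2 := klx_count φ (Bad n) n D (Real.sqrt (h / P)) hD.le hδ ?_ ?_
      · have h3 : 2 * D / Real.sqrt (h / P) = 2 * D * Real.sqrt (P / h) := by
          rw [div_eq_mul_inv, ← Real.sqrt_inv, inv_div]
        rw [h3] at h2
        exact h2
      · intro i hi
        rw [hBad] at hi
        simp only [Finset.mem_filter, Finset.mem_range] at hi
        exact hi.2
      · intro i hi j hj hij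
        rw [hBad] at hi
        simp only [Finset.mem_filter, Finset.mem_range] at hi
        obtain ⟨-, hi2⟩ := hi
        rw [abs_lt] at hi2
        have hn' : (1 : ℝ) ≤ n := by exact_mod_cast hn
        have h3 : 1 / 2 < φ i := by linarith [hi2.1]
        have hqi : q ≤ i := by
          by_contra hcon
          push Not at hcon
          have := hφle i q hcon.le le_rfl
          linarith
        have h4 := hφle i i le_rfl hqi
        have h5 : 1 / 14 < (h : ℝ) / P * (i : ℝ) ^ 2 := by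
          have : 7 * (h : ℝ) * (i : ℝ) ^ 2 / P = 7 * ((h : ℝ) / P * (i : ℝ) ^ 2) := by ring
          rw [this] at h4
          linarith
        have hij' : (i : ℝ) ≤ j := by exact_mod_cast hij
        have h6 : φ j - φ i = (h : ℝ) / P * (3 * ((j : ℝ) + i) + 3 * q) * ((j : ℝ) - i) := by
          rw [hφ]
          unfold klx_phx
          ring
        rw [h6]
        apply mul_le_mul_of_nonneg_right _ (by linarith)
        have h7 : Real.sqrt (h / P) ≤ (h : ℝ) / P * (6 * i) := by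
          rw [Real.sqrt_le_left (by positivity)]
          have h8 : ((h : ℝ) / P * (6 * i)) ^ 2 = 36 * ((h : ℝ) / P) * ((h : ℝ) / P * (i : ℝ) ^ 2) := by
            ring
          rw [h8]
          have h9 : 0 < (h : ℝ) / P := by positivity
          nlinarith
        refine h7.trans ?_
        apply mul_le_mul_of_nonneg_left _ (by positivity)
        nlinarith
    have hcard : (((range N).filter (fun i => ¬ good i)).card : ℝ) ≤
        ∑ n ∈ range m, ((Bad n).card : ℝ) := by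
      have h2 := (Finset.card_le_card hsub).trans Finset.card_biUnion_le
      exact_mod_cast h2
    refine hcard.trans ?_
    obtain ⟨m', rfl⟩ : ∃ m', m = m' + 1 := ⟨m - 1, by omega⟩
    rw [Finset.sum_range_succ']
    have h2 : ∑ n ∈ range m', ((Bad (n + 1)).card : ℝ) ≤
        ∑ n ∈ range m', (1 + 2 * D * Real.sqrt (P / h)) :=
      Finset.sum_le_sum (fun n _ => hncard (n + 1) (by omega))
    rw [Finset.sum_const, Finset.card_range, nsmul_eq_mul] at h2
    have h3 : (0 : ℝ) ≤ 1 + 2 * D * Real.sqrt (P / h) := by positivity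
    push_cast
    nlinarith
  linarith

/-! ### asymptotics -/

/-- powers of `y = P^(1/200)` -/
theorem klx_ypow (P : ℕ) (n : ℕ) : (((P : ℝ) ^ (1 / 200 : ℝ)) ^ n) = (P : ℝ) ^ ((n : ℝ) / 200) := by
  rw [← Real.rpow_natCast, ← Real.rpow_mul (Nat.cast_nonneg P)]
  congr 1
  ring

theorem klx_harm (H : ℕ) : ∑ h ∈ Icc 1 H, (1 : ℝ) / h ≤ 1 + Real.log H := by
  have h1 := harmonic_le_one_add_log H
  rw [harmonic_eq_sum_Icc] at h1
  push_cast at h1
  simpa [one_div] using h1

theorem klx_four_sq (a b c d : ℝ) : (a + b + c + d) ^ 2 ≤ 4 * (a ^ 2 + b ^ 2 + c ^ 2 + d ^ 2) := by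
  nlinarith [sq_nonneg (a - b), sq_nonneg (a - c), sq_nonneg (a - d), sq_nonneg (b - c),
    sq_nonneg (b - d), sq_nonneg (c - d)]

theorem stKL : StKL := by
  intro M ε hε
  set μ : ℝ := (M : ℝ) + 1 with hμ
  have hμ1 : 1 ≤ μ := by
    have : (0 : ℝ) ≤ M := Nat.cast_nonneg M
    linarith
  set Y : ℝ := max 2 (max (3584 * μ + 1) (1600000 * μ ^ 3 / ε)) with hY
  have htend : Filter.Tendsto (fun P : ℕ => (P : ℝ) ^ (1 / 200 : ℝ)) Filter.atTop Filter.atTop :=
    (tendsto_rpow_atTop (by norm_num)).comp tendsto_natCast_atTop_atTop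
  obtain ⟨P0, hP0⟩ := Filter.eventually_atTop.1 (htend.eventually_ge_atTop Y)
  refine ⟨P0, fun P hPP0 q κ hq hκ hq2 N hN1 hN2 => ?_⟩
  have hyY := hP0 P hPP0
  set y : ℝ := (P : ℝ) ^ (1 / 200 : ℝ) with hy
  have hy2 : 2 ≤ y := (le_max_left _ _).trans hyY
  have hyμ : 3584 * μ + 1 ≤ y := ((le_max_left _ _).trans (le_max_right _ _)).trans hyY
  have hyε : 1600000 * μ ^ 3 / ε ≤ y := ((le_max_right _ _).trans (le_max_right _ _)).trans hyY
  have hy1 : 1 ≤ y := by linarith
  have hy0 : 0 < y := by linarith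
  have hP1 : 1 ≤ P := by
    rcases Nat.eq_zero_or_pos P with h0 | h0
    · exfalso
      subst h0
      rw [hy, Nat.cast_zero, Real.zero_rpow (by norm_num)] at hy2
      linarith
    · exact h0
  have hPy : (P : ℝ) = y ^ 200 := by
    rw [hy, klx_ypow]
    norm_num
  have hP15 : (P : ℝ) ^ (1 / 5 : ℝ) = y ^ 40 := by
    rw [hy, klx_ypow]; norm_num
  have hP125 : (P : ℝ) ^ (1 / 25 : ℝ) = y ^ 8 := by
    rw [hy, klx_ypow]; norm_num
  have hP25 : (P : ℝ) ^ (2 / 5 : ℝ) = y ^ 80 := by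
    rw [hy, klx_ypow]; norm_num
  have hP41 : (P : ℝ) ^ (41 / 100 : ℝ) = y ^ 82 := by
    rw [hy, klx_ypow]; norm_num
  rw [hP125] at hq2
  rw [hP25] at hN1
  rw [hP41] at hN2
  -- the number of frequencies
  set H := HH M P with hH
  have hHle : (H : ℝ) ≤ μ * y ^ 40 := by
    rw [hH]
    unfold HH
    rw [hP15]
    have h1 := (Nat.ceil_lt_add_one (show 0 ≤ (M : ℝ) * y ^ 40 by positivity)).le
    have h2 : (1 : ℝ) ≤ y ^ 40 := one_le_pow₀ hy1
    calc ((⌈(M : ℝ) * y ^ 40⌉₊ : ℕ) : ℝ) ≤ (M : ℝ) * y ^ 40 + 1 := h1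
      _ ≤ μ * y ^ 40 := by rw [hμ]; linarith
  have hqN : q ≤ N := by
    have h1 : (32 : ℝ) ≤ y ^ 72 := by
      calc (32 : ℝ) ≤ 2 ^ 72 := by norm_num
        _ ≤ y ^ 72 := by gcongr
    have h2 : y ^ 80 = y ^ 8 * y ^ 72 := by ring
    have h3 : 0 < y ^ 8 := by positivity
    have h4 : (q : ℝ) ≤ N := by
      rw [h2] at hN1
      nlinarith
    exact_mod_cast h4
  set D : ℝ := (y ^ 44)⁻¹ with hD
  have hD0 : 0 < D := by positivity
  have hD2 : D ≤ 1 / 2 := by
    rw [hD, one_div]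
    apply inv_anti₀ (by norm_num)
    calc (2 : ℝ) ≤ 2 ^ 44 := by norm_num
      _ ≤ y ^ 44 := by gcongr
  -- the bound for one frequency
  have hone : ∀ h ∈ Icc 1 H, ‖S h κ P 0 0 N‖ ^ 2 ≤
      1300 * μ ^ 2 * y ^ 156 * (1 / h) + 332176 * μ ^ 2 * y ^ 112 := by
    intro h hh
    rw [Finset.mem_Icc] at hh
    have hh1 := hh.1
    have hhr : (1 : ℝ) ≤ h := by exact_mod_cast hh.1
    have hhH : (h : ℝ) ≤ μ * y ^ 40 := le_trans (by exact_mod_cast hh.2) hHle
    have hq0 : (0 : ℝ) ≤ q := Nat.cast_nonneg q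
    have hN0 : (0 : ℝ) ≤ N := Nat.cast_nonneg N
    have hsmall : 7 * (h : ℝ) * (q : ℝ) ^ 2 / P < 1 / 2 := by
      rw [hPy, div_lt_iff₀ (by positivity)]
      have h1 : (q : ℝ) ^ 2 ≤ (16 * y ^ 8) ^ 2 := by gcongr
      have h2 : 7 * (h : ℝ) * (q : ℝ) ^ 2 ≤ 7 * (μ * y ^ 40) * (16 * y ^ 8) ^ 2 := by gcongr
      have h3 : 7 * (μ * y ^ 40) * (16 * y ^ 8) ^ 2 = 1792 * μ * y ^ 56 := by ring
      have h4 : y ^ 200 = y ^ 144 * y ^ 56 := by ring
      have h5 : y ≤ y ^ 144 := le_self_pow₀ hy1 (by norm_num)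
      have h6 : 0 < y ^ 56 := by positivity
      rw [h4]
      rw [h3] at h2
      nlinarith
    set B : ℝ := 7 * (h : ℝ) * (N : ℝ) ^ 2 / P with hB
    have hB0 : 0 ≤ B := by positivity
    have hBle : B ≤ 7 * μ * y ^ 4 := by
      rw [hB, hPy, div_le_iff₀ (by positivity)]
      calc 7 * (h : ℝ) * (N : ℝ) ^ 2 ≤ 7 * (μ * y ^ 40) * (y ^ 82) ^ 2 := by gcongr
        _ = 7 * μ * y ^ 4 * y ^ 200 := by ring
    set m : ℕ := ⌊B⌋₊ + 2 with hm
    have hmB : B + 1 < m := by
      rw [hm]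
      push_cast
      have := Nat.lt_floor_add_one B
      linarith
    have hy4 : (1 : ℝ) ≤ y ^ 4 := one_le_pow₀ hy1
    have hmle : (m : ℝ) ≤ 9 * μ * y ^ 4 := by
      rw [hm]
      push_cast
      have := Nat.floor_le hB0
      nlinarith
    have hm0 : (0 : ℝ) ≤ m := Nat.cast_nonneg m
    have hcore := klx_core P q κ N h hP1 hq hκ hh1 hqN D hD0 hD2 hsmall m hmB
    have hsplit : Real.sqrt (D * P / h) + 1 + m * (1 + 2 * D * Real.sqrt (P / h)) +
        q * m * (2 / D) = Real.sqrt (D * P / h) + (1 + m) + (2 * m * D * Real.sqrt (P / h)) +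
        q * m * (2 / D) := by ring
    rw [hsplit] at hcore
    have hsq : ‖S h κ P 0 0 N‖ ^ 2 ≤ (Real.sqrt (D * P / h) + (1 + m) +
        (2 * m * D * Real.sqrt (P / h)) + q * m * (2 / D)) ^ 2 := by
      gcongr
    refine hsq.trans ((klx_four_sq _ _ _ _).trans ?_)
    have hDy : D * y ^ 44 = 1 := by
      rw [hD]
      exact inv_mul_cancel₀ (by positivity)
    have t1 : Real.sqrt (D * P / h) ^ 2 = y ^ 156 * (1 / h) := by
      rw [Real.sq_sqrt (by positivity), hPy]
      have : D * y ^ 200 = y ^ 156 := by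
        calc D * y ^ 200 = (D * y ^ 44) * y ^ 156 := by ring
          _ = y ^ 156 := by rw [hDy, one_mul]
      rw [this]
      ring
    have t2 : (1 + (m : ℝ)) ^ 2 ≤ 100 * μ ^ 2 * y ^ 8 := by
      have h1 : 1 + (m : ℝ) ≤ 10 * μ * y ^ 4 := by nlinarith
      calc (1 + (m : ℝ)) ^ 2 ≤ (10 * μ * y ^ 4) ^ 2 := by gcongr
        _ = 100 * μ ^ 2 * y ^ 8 := by ring
    have t3 : (2 * m * D * Real.sqrt (P / h)) ^ 2 ≤ 324 * μ ^ 2 * y ^ 120 * (1 / h) := by
      rw [mul_pow, Real.sq_sqrt (by positivity), hPy]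
      calc (2 * (m : ℝ) * D) ^ 2 * (y ^ 200 / h) ≤ (2 * (9 * μ * y ^ 4) * D) ^ 2 * (y ^ 200 / h) := by
            gcongr
        _ = 324 * μ ^ 2 * y ^ 120 * (D * y ^ 44) ^ 2 * (1 / h) := by ring
        _ = 324 * μ ^ 2 * y ^ 120 * (1 / h) := by rw [hDy]; ring
    have t4 : ((q : ℝ) * m * (2 / D)) ^ 2 ≤ 82944 * μ ^ 2 * y ^ 112 := by
      have h1 : 2 / D = 2 * y ^ 44 := by
        rw [hD, div_inv_eq_mul]
      rw [h1]
      calc ((q : ℝ) * m * (2 * y ^ 44)) ^ 2 ≤ ((16 * y ^ 8) * (9 * μ * y ^ 4) * (2 * y ^ 44)) ^ 2 := by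
            gcongr
        _ = 82944 * μ ^ 2 * y ^ 112 := by ring
    rw [t1]
    have u1 : y ^ 120 ≤ y ^ 156 := pow_le_pow_right₀ hy1 (by norm_num)
    have u2 : y ^ 8 ≤ y ^ 112 := pow_le_pow_right₀ hy1 (by norm_num)
    have u3 : (1 : ℝ) ≤ μ ^ 2 := one_le_pow₀ hμ1
    have u4 : 0 < y ^ 156 := by positivity
    have u5 : (0 : ℝ) ≤ 1 / h := by positivity
    have v1 : y ^ 156 * (1 / (h : ℝ)) ≤ μ ^ 2 * y ^ 156 * (1 / h) := by
      apply mul_le_mul_of_nonneg_right _ u5
      nlinarith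
    have v2 : 324 * μ ^ 2 * y ^ 120 * (1 / (h : ℝ)) ≤ 324 * μ ^ 2 * y ^ 156 * (1 / h) := by
      gcongr
    have v3 : 100 * μ ^ 2 * y ^ 8 ≤ 100 * μ ^ 2 * y ^ 112 := by gcongr
    calc 4 * (y ^ 156 * (1 / (h : ℝ)) + (1 + (m : ℝ)) ^ 2 +
          (2 * m * D * Real.sqrt (P / h)) ^ 2 + ((q : ℝ) * m * (2 / D)) ^ 2)
        ≤ 4 * (μ ^ 2 * y ^ 156 * (1 / h) + 100 * μ ^ 2 * y ^ 112 +
          324 * μ ^ 2 * y ^ 156 * (1 / h) + 82944 * μ ^ 2 * y ^ 112) := by
          linarith
      _ = 1300 * μ ^ 2 * y ^ 156 * (1 / h) + 332176 * μ ^ 2 * y ^ 112 := by ring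
  rcases Nat.eq_zero_or_pos H with hH0 | hH0
  · rw [hH0]
    simp only [show Icc 1 0 = (∅ : Finset ℕ) from rfl, sum_empty]
    positivity
  · refine (Finset.sum_le_sum hone).trans ?_
    rw [Finset.sum_add_distrib, ← Finset.mul_sum, Finset.sum_const, Nat.card_Icc,
      Nat.add_sub_cancel, nsmul_eq_mul]
    have hHr : (1 : ℝ) ≤ H := by exact_mod_cast hH0
    have hlog : 1 + Real.log H ≤ 42 * μ * y := by
      have h1 : Real.log H ≤ Real.log (μ * y ^ 40) := Real.log_le_log (by linarith) hHle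
      rw [Real.log_mul (by linarith) (by positivity), Real.log_pow] at h1
      have h2 : Real.log μ ≤ μ := (Real.log_le_self (by linarith))
      have h3 : Real.log y ≤ y := (Real.log_le_self (by linarith))
      push_cast at h1
      nlinarith
    have hharm := (klx_harm H).trans hlog
    have hfin : 400000 * μ ^ 3 * y ^ 157 ≤ ε * (N : ℝ) ^ 2 := by
      have h1 : (y ^ 80 / 2) ^ 2 ≤ (N : ℝ) ^ 2 := by
        gcongr
        linarith
      have h2 : 1600000 * μ ^ 3 ≤ ε * y := by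
        rw [div_le_iff₀ hε] at hyε
        linarith
      have h3 : y ≤ y ^ 3 := le_self_pow₀ hy1 (by norm_num)
      have h4 : 1600000 * μ ^ 3 ≤ ε * y ^ 3 := h2.trans (by gcongr)
      calc 400000 * μ ^ 3 * y ^ 157 = (1600000 * μ ^ 3) * (y ^ 157 / 4) := by ring
        _ ≤ (ε * y ^ 3) * (y ^ 157 / 4) := by gcongr
        _ = ε * (y ^ 80 / 2) ^ 2 := by ring
        _ ≤ ε * (N : ℝ) ^ 2 := by gcongr
    refine le_trans ?_ hfin
    have w1 : 1300 * μ ^ 2 * y ^ 156 * ∑ h ∈ Icc 1 H, (1 / (h : ℝ)) ≤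
        1300 * μ ^ 2 * y ^ 156 * (42 * μ * y) := by gcongr
    have w2 : (H : ℝ) * (332176 * μ ^ 2 * y ^ 112) ≤ (μ * y ^ 40) * (332176 * μ ^ 2 * y ^ 112) := by
      gcongr
    have w3 : y ^ 152 ≤ y ^ 157 := pow_le_pow_right₀ hy1 (by norm_num)
    have w4 : (332176 * μ ^ 3) * y ^ 152 ≤ (332176 * μ ^ 3) * y ^ 157 := by gcongr
    have w5 : 0 ≤ μ ^ 3 * y ^ 157 := by positivity
    calc 1300 * μ ^ 2 * y ^ 156 * ∑ h ∈ Icc 1 H, (1 / (h : ℝ)) +
          (H : ℝ) * (332176 * μ ^ 2 * y ^ 112)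
        ≤ 1300 * μ ^ 2 * y ^ 156 * (42 * μ * y) + (μ * y ^ 40) * (332176 * μ ^ 2 * y ^ 112) :=
          add_le_add w1 w2
      _ = 54600 * (μ ^ 3 * y ^ 157) + (332176 * μ ^ 3) * y ^ 152 := by ring
      _ ≤ 400000 * μ ^ 3 * y ^ 157 := by linarith

end Pool.Agent.R286.CU
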