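import Pool.Agent.R286.CU.Stm
import Pool.Agent.H353R2.Z2
import Pool.Agent.H520R3.Weyl

/-!
# CU-W: mean square of cubic Weyl sums (MP_e4c747_an)
-/

set_option autoImplicit false

namespace Pool.Agent.R286.CU

open Finset

theorem ee (x : ℝ) : e x = Pool.Agent.H520R3.e x := rfl

/-- bound for the geometric sum with ratio `e (v/Q)` and at most `K` terms -/
noncomputable def mm (Q K v : ℕ) : ℝ :=
  if v % Q = 0 then (K : ℝ) else (Q : ℝ) / ((v % Q : ℕ) : ℝ) + (Q : ℝ) / ((Q : ℝ) - ((v % Q : ℕ) : ℝ))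

theorem mm_nonneg {Q K v : ℕ} (hQ : 0 < Q) : 0 ≤ mm Q K v := by
  unfold mm
  split_ifs with h
  · positivity
  · have h1 : ((v % Q : ℕ) : ℝ) < Q := by exact_mod_cast Nat.mod_lt v hQ
    have h2 : (0 : ℝ) < (Q : ℝ) - ((v % Q : ℕ) : ℝ) := by linarith
    positivity

theorem norm_sum_le_card (f : ℕ → ℝ) (n : ℕ) : ‖∑ k ∈ range n, e (f k)‖ ≤ n := by
  refine (norm_sum_le _ _).trans ?_
  have : ∀ k ∈ range n, ‖e (f k)‖ = 1 := fun k _ => Pool.Agent.H520R3.norm_e _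
  rw [sum_congr rfl this]
  simp

theorem lin_bound {Q K : ℕ} (hQ : 0 < Q) (v n : ℕ) (hn : n ≤ K) (β : ℝ) :
    ‖∑ k ∈ range n, e ((v : ℝ) / Q * k + β)‖ ≤ mm Q K v := by
  have hnK : (n : ℝ) ≤ K := by exact_mod_cast hn
  unfold mm
  split_ifs with h
  · exact (norm_sum_le_card _ n).trans hnK
  · obtain ⟨r, hr⟩ : ∃ r, r = v % Q := ⟨_, rfl⟩
    rw [← hr] at h ⊢
    have hrQ : r < Q := by rw [hr]; exact Nat.mod_lt v hQ
    have hr0 : (0 : ℝ) < r := by exact_mod_cast Nat.pos_of_ne_zero h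
    have hQ0 : (0 : ℝ) < Q := by exact_mod_cast hQ
    have hQr : (0 : ℝ) < (Q : ℝ) - r := by
      have : (r : ℝ) < Q := by exact_mod_cast hrQ
      linarith
    have h1 : ∑ k ∈ range n, e ((v : ℝ) / Q * k + β) =
        (∑ k ∈ range n, Pool.Agent.H520R3.e ((v : ℝ) / Q * k)) * Pool.Agent.H520R3.e β := by
      rw [sum_mul]
      refine sum_congr rfl fun k _ => ?_
      rw [← Pool.Agent.H520R3.e_add]
      rfl
    rw [h1, norm_mul, Pool.Agent.H520R3.norm_e, mul_one]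
    obtain ⟨μ, hμ⟩ : ∃ μ : ℝ, μ = min (r : ℝ) ((Q : ℝ) - r) := ⟨_, rfl⟩
    have hμ0 : 0 < μ := by rw [hμ]; exact lt_min hr0 hQr
    have h2 : ∀ j : ℤ, μ / (2 * Q) < |(v : ℝ) / Q - j| := by
      intro j
      have h3 : (v : ℝ) / Q - j = (((v : ℤ) - Q * j : ℤ) : ℝ) / Q := by
        push_cast
        field_simp
      rw [h3, abs_div, abs_of_pos hQ0, div_lt_div_iff₀ (by positivity) hQ0]
      have h4 : μ ≤ |(((v : ℤ) - Q * j : ℤ) : ℝ)| := by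
        have h5 : (v : ℤ) = Q * (v / Q : ℕ) + r := by
          rw [hr]
          exact_mod_cast (Nat.div_add_mod v Q).symm
        obtain ⟨i, hi⟩ : ∃ i : ℤ, i = ((v / Q : ℕ) : ℤ) - j := ⟨_, rfl⟩
        have h6 : (v : ℤ) - Q * j = Q * i + r := by rw [h5, hi]; ring
        rw [h6]
        rcases le_or_gt 0 i with h7 | h7
        · have h8 : (r : ℝ) ≤ ((Q * i + r : ℤ) : ℝ) := by
            push_cast
            have : (0 : ℝ) ≤ i := by exact_mod_cast h7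
            nlinarith
          rw [hμ]
          exact (min_le_left _ _).trans (h8.trans (le_abs_self _))
        · have h8 : (Q : ℝ) - r ≤ -((Q * i + r : ℤ) : ℝ) := by
            push_cast
            have : (i : ℝ) ≤ -1 := by exact_mod_cast (by omega : i ≤ -1)
            nlinarith
          rw [hμ]
          exact (min_le_right _ _).trans (h8.trans (neg_le_abs _))
      nlinarith [mul_pos hQ0 hμ0]
    have h3 := Pool.Agent.H520R3.geom_bound (by positivity : 0 < μ / (2 * (Q : ℝ))) h2 n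
    refine h3.trans ?_
    have h4 : 1 / (2 * (μ / (2 * (Q : ℝ)))) = Q / μ := by
      field_simp
    rw [h4, hμ]
    rcases le_total (r : ℝ) ((Q : ℝ) - r) with h5 | h5
    · rw [min_eq_left h5]
      have : 0 < (Q : ℝ) / ((Q : ℝ) - r) := by positivity
      linarith
    · rw [min_eq_right h5]
      have : 0 < (Q : ℝ) / r := by positivity
      linarith

/-- Weyl differencing for a real phase -/
theorem diff_real (f : ℕ → ℝ) (n : ℕ) :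
    ‖∑ x ∈ range n, e (f x)‖ ^ 2 ≤
      2 * ∑ l ∈ range n, ‖∑ x ∈ range (n - l), e (f (l + x) - f x)‖ := by
  have h1 := Pool.Agent.H520R3.diff_ineq (fun x => Pool.Agent.H520R3.e (f x)) n
  refine h1.trans (le_of_eq ?_)
  congr 1
  refine sum_congr rfl fun l _ => ?_
  congr 1
  refine sum_congr rfl fun x _ => ?_
  rw [← Pool.Agent.H520R3.e_neg, ← Pool.Agent.H520R3.e_add]
  rfl

/-- the phase -/
noncomputable def ph (h κ Q : ℕ) (a b : ℝ) (k : ℕ) : ℝ :=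
  (h : ℝ) * ((κ : ℝ) * (k : ℝ) ^ 3 / (Q : ℝ) + a * (k : ℝ) ^ 2 + b * (k : ℝ))

theorem second_diff {Q : ℕ} (hQ : 0 < Q) (h κ : ℕ) (a b : ℝ) (l u k : ℕ) :
    (ph h κ Q a b (l + (u + k)) - ph h κ Q a b (u + k)) -
      (ph h κ Q a b (l + k) - ph h κ Q a b k) =
      ((κ * (6 * (h * l * u)) : ℕ) : ℝ) / Q * k + ((h : ℝ) * ((κ : ℝ) * (3 * l * u * (l + u)) / Q +
        2 * a * l * u)) := by
  have hQ0 : (Q : ℝ) ≠ 0 := by
    have : (0 : ℝ) < Q := by exact_mod_cast hQ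
    exact this.ne'
  unfold ph
  push_cast
  field_simp
  ring

theorem T_bound {Q : ℕ} (hQ : 0 < Q) (h κ : ℕ) (a b : ℝ) (K l : ℕ) :
    ‖∑ x ∈ range (K - l), e (ph h κ Q a b (l + x) - ph h κ Q a b x)‖ ^ 2 ≤
      2 * ∑ u ∈ range K, mm Q K (κ * (6 * (h * l * u))) := by
  refine (diff_real (fun x => ph h κ Q a b (l + x) - ph h κ Q a b x) (K - l)).trans ?_
  apply mul_le_mul_of_nonneg_left _ (by norm_num)
  calc ∑ u ∈ range (K - l), ‖∑ x ∈ range (K - l - u), e ((ph h κ Q a b (l + (u + x)) -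
        ph h κ Q a b (u + x)) - (ph h κ Q a b (l + x) - ph h κ Q a b x))‖
      ≤ ∑ u ∈ range (K - l), mm Q K (κ * (6 * (h * l * u))) := by
        apply sum_le_sum
        intro u _
        simp only [second_diff hQ]
        exact lin_bound hQ _ _ (by omega) _
    _ ≤ ∑ u ∈ range K, mm Q K (κ * (6 * (h * l * u))) := by
        apply sum_le_sum_of_subset_of_nonneg
        · exact range_subset_range.2 (by omega)
        · intro _ _ _
          exact mm_nonneg hQ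

/-- Steps 1 to 3. -/
theorem mean_square {Q : ℕ} (hQ : 0 < Q) (κ : ℕ) (a b : ℝ) (K H : ℕ) :
    (∑ h ∈ Icc 1 H, ‖S h κ Q a b K‖ ^ 2) ^ 2 ≤
      8 * ((H : ℝ) * K) * ∑ h ∈ Icc 1 H, ∑ l ∈ range K, ∑ u ∈ range K,
        mm Q K (κ * (6 * (h * l * u))) := by
  obtain ⟨T, hT⟩ : ∃ T : ℕ → ℕ → ℝ, T = fun h l =>
    ‖∑ x ∈ range (K - l), e (ph h κ Q a b (l + x) - ph h κ Q a b x)‖ := ⟨_, rfl⟩
  have h1 : ∑ h ∈ Icc 1 H, ‖S h κ Q a b K‖ ^ 2 ≤ 2 * ∑ h ∈ Icc 1 H, ∑ l ∈ range K, T h l := by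
    rw [mul_sum]
    apply sum_le_sum
    intro h _
    rw [hT]
    exact diff_real (ph h κ Q a b) K
  have h0 : 0 ≤ ∑ h ∈ Icc 1 H, ‖S h κ Q a b K‖ ^ 2 := sum_nonneg fun _ _ => sq_nonneg _
  have h2 : (∑ h ∈ Icc 1 H, ∑ l ∈ range K, T h l) ^ 2 ≤
      ((H : ℝ) * K) * ∑ h ∈ Icc 1 H, ∑ l ∈ range K, (T h l) ^ 2 := by
    rw [← sum_product' (Icc 1 H) (range K) (fun h l => T h l),
      ← sum_product' (Icc 1 H) (range K) (fun h l => (T h l) ^ 2)]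
    have := sq_sum_le_card_mul_sum_sq (s := Icc 1 H ×ˢ range K) (f := fun p => T p.1 p.2)
    rw [card_product, Nat.card_Icc, card_range, Nat.add_sub_cancel] at this
    push_cast at this
    exact this
  have h3 : ∑ h ∈ Icc 1 H, ∑ l ∈ range K, (T h l) ^ 2 ≤ 2 * ∑ h ∈ Icc 1 H, ∑ l ∈ range K,
      ∑ u ∈ range K, mm Q K (κ * (6 * (h * l * u))) := by
    rw [mul_sum]
    apply sum_le_sum
    intro h _
    rw [mul_sum]
    apply sum_le_sum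
    intro l _
    rw [hT]
    exact T_bound hQ h κ a b K l
  calc (∑ h ∈ Icc 1 H, ‖S h κ Q a b K‖ ^ 2) ^ 2
      ≤ (2 * ∑ h ∈ Icc 1 H, ∑ l ∈ range K, T h l) ^ 2 := pow_le_pow_left₀ h0 h1 2
    _ = 4 * (∑ h ∈ Icc 1 H, ∑ l ∈ range K, T h l) ^ 2 := by ring
    _ ≤ 4 * (((H : ℝ) * K) * ∑ h ∈ Icc 1 H, ∑ l ∈ range K, (T h l) ^ 2) := by linarith
    _ ≤ 4 * (((H : ℝ) * K) * (2 * ∑ h ∈ Icc 1 H, ∑ l ∈ range K,
      ∑ u ∈ range K, mm Q K (κ * (6 * (h * l * u))))) := by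
        apply mul_le_mul_of_nonneg_left _ (by norm_num)
        exact mul_le_mul_of_nonneg_left h3 (by positivity)
    _ = _ := by ring

/-! ### The divisor sum -/

theorem mm_mod {Q K v w : ℕ} (h : v % Q = w % Q) : mm Q K v = mm Q K w := by
  unfold mm; rw [h]

theorem sum_mm_mul {Q κ : ℕ} (hQ : 0 < Q) (hκ : Nat.Coprime κ Q) (K : ℕ) :
    ∑ s ∈ range Q, mm Q K (κ * s) = ∑ s ∈ range Q, mm Q K s := by
  have hinj : Set.InjOn (fun s => κ * s % Q) (range Q) := by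
    intro s hs s' hs' h
    simp only [coe_range, Set.mem_Iio] at hs hs'
    have h1 : κ * s ≡ κ * s' [MOD Q] := h
    have h2 : s ≡ s' [MOD Q] := Nat.ModEq.cancel_left_of_coprime hκ.symm h1
    have h3 : s % Q = s' % Q := h2
    rwa [Nat.mod_eq_of_lt hs, Nat.mod_eq_of_lt hs'] at h3
  have himg : (range Q).image (fun s => κ * s % Q) = range Q := by
    apply eq_of_subset_of_card_le
    · intro x hx
      obtain ⟨s, -, rfl⟩ := mem_image.1 hx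
      exact mem_range.2 (Nat.mod_lt _ hQ)
    · rw [card_image_of_injOn hinj]
  conv_rhs => rw [← himg]
  rw [sum_image hinj]
  refine sum_congr rfl fun s _ => mm_mod (by simp)

theorem sum_mm_blocks {Q κ : ℕ} (hQ : 0 < Q) (hκ : Nat.Coprime κ Q) (K n : ℕ) :
    ∑ v ∈ range (Q * n), mm Q K (κ * v) = n * ∑ s ∈ range Q, mm Q K s := by
  induction n with
  | zero => simp
  | succ n ih =>
    rw [mul_add, mul_one, sum_range_add, ih]
    have h1 : ∑ x ∈ range Q, mm Q K (κ * (Q * n + x)) = ∑ s ∈ range Q, mm Q K s := by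
      rw [← sum_mm_mul hQ hκ K]
      refine sum_congr rfl fun s _ => mm_mod ?_
      have : κ * (Q * n + s) = κ * s + Q * (κ * n) := by ring
      rw [this, Nat.add_mul_mod_self_left]
    rw [h1]
    push_cast
    ring

theorem sum_mm_le {Q : ℕ} (hQ : 0 < Q) (K : ℕ) :
    ∑ s ∈ range Q, mm Q K s ≤ K + 2 * Q * (1 + Real.log Q) := by
  obtain ⟨q, rfl⟩ : ∃ q, Q = q + 1 := ⟨Q - 1, by omega⟩
  rw [sum_range_succ']
  have h0 : mm (q + 1) K 0 = K := by unfold mm; simp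
  have h1 : ∀ s ∈ range q, mm (q + 1) K (s + 1) = ((q + 1 : ℕ) : ℝ) * (1 / ((s + 1 : ℕ) : ℝ)) +
      ((q + 1 : ℕ) : ℝ) * (1 / (((q - 1 - s) + 1 : ℕ) : ℝ)) := by
    intro s hs
    rw [mem_range] at hs
    unfold mm
    have h2 : (s + 1) % (q + 1) = s + 1 := Nat.mod_eq_of_lt (by omega)
    rw [h2, if_neg (by omega)]
    have h3 : (((q - 1 - s) + 1 : ℕ) : ℝ) = ((q + 1 : ℕ) : ℝ) - ((s + 1 : ℕ) : ℝ) := by
      rw [← Nat.cast_sub (by omega)]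
      congr 1
      omega
    rw [h3]
    ring
  rw [h0, sum_congr rfl h1, sum_add_distrib, ← mul_sum, ← mul_sum,
    sum_range_reflect (fun s => 1 / (((s + 1 : ℕ)) : ℝ)) q]
  have h4 : ∑ s ∈ range q, 1 / (((s + 1 : ℕ)) : ℝ) ≤ 1 + Real.log ((q + 1 : ℕ) : ℝ) := by
    have h5 := harmonic_le_one_add_log (q + 1)
    have h6 : ((harmonic (q + 1) : ℚ) : ℝ) = ∑ s ∈ range (q + 1), 1 / (((s + 1 : ℕ)) : ℝ) := by
      unfold harmonic
      push_cast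
      refine sum_congr rfl fun s _ => by rw [one_div]
    rw [h6, sum_range_succ] at h5
    have h7 : (0 : ℝ) < 1 / (((q + 1 : ℕ)) : ℝ) := by positivity
    linarith
  have h5 : (0 : ℝ) ≤ ((q + 1 : ℕ) : ℝ) := by positivity
  nlinarith [mul_le_mul_of_nonneg_left h4 h5]

/-- the main part of the divisor sum -/
theorem triple_main {Q κ : ℕ} (hQ : 0 < Q) (hκ : Nat.Coprime κ Q) (K H : ℕ) {D : ℝ}
    (hD0 : 0 ≤ D) (hD : ∀ w : ℕ, 1 ≤ w → w ≤ H * K ^ 2 → (w.divisors.card : ℝ) ≤ D) :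
    ∑ p ∈ (Icc 1 H ×ˢ (range K ×ˢ range K)).filter (fun p => 1 ≤ p.2.1 ∧ 1 ≤ p.2.2),
      mm Q K (κ * (6 * (p.1 * p.2.1 * p.2.2))) ≤
      D ^ 2 * ((((6 * (H * K ^ 2)) / Q + 1 : ℕ) : ℝ) * (K + 2 * Q * (1 + Real.log Q))) := by
  have hmaps : ∀ p ∈ (Icc 1 H ×ˢ (range K ×ˢ range K)).filter (fun p => 1 ≤ p.2.1 ∧ 1 ≤ p.2.2),
      p.1 * p.2.1 * p.2.2 ∈ Icc 1 (H * K ^ 2) := by
    rintro ⟨h, l, u⟩ hp
    simp only [mem_filter, mem_product, mem_Icc, mem_range] at hp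
    obtain ⟨⟨⟨h1, h2⟩, h3, h4⟩, h5, h6⟩ := hp
    rw [mem_Icc]
    refine ⟨Nat.mul_pos (Nat.mul_pos h1 h5) h6, ?_⟩
    calc h * l * u ≤ H * K * K := Nat.mul_le_mul (Nat.mul_le_mul h2 h3.le) h4.le
      _ = H * K ^ 2 := by ring
  rw [← sum_fiberwise_of_maps_to hmaps]
  have h1 : ∀ w ∈ Icc 1 (H * K ^ 2), ∑ p ∈ ((Icc 1 H ×ˢ (range K ×ˢ range K)).filter
      (fun p => 1 ≤ p.2.1 ∧ 1 ≤ p.2.2)).filter (fun p => p.1 * p.2.1 * p.2.2 = w),
      mm Q K (κ * (6 * (p.1 * p.2.1 * p.2.2))) ≤ D ^ 2 * mm Q K (κ * (6 * w)) := by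
    intro w hw
    rw [mem_Icc] at hw
    have h2 : ∀ p ∈ ((Icc 1 H ×ˢ (range K ×ˢ range K)).filter
      (fun p => 1 ≤ p.2.1 ∧ 1 ≤ p.2.2)).filter (fun p => p.1 * p.2.1 * p.2.2 = w),
      mm Q K (κ * (6 * (p.1 * p.2.1 * p.2.2))) = mm Q K (κ * (6 * w)) := by
      intro p hp
      rw [(mem_filter.1 hp).2]
    rw [sum_congr rfl h2, sum_const, nsmul_eq_mul]
    apply mul_le_mul_of_nonneg_right _ (mm_nonneg hQ)
    have h3 : (((Icc 1 H ×ˢ (range K ×ˢ range K)).filter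
      (fun p => 1 ≤ p.2.1 ∧ 1 ≤ p.2.2)).filter (fun p => p.1 * p.2.1 * p.2.2 = w)).card ≤
        (w.divisors ×ˢ w.divisors).card := by
      apply card_le_card_of_injOn (fun p => (p.1, p.2.1))
      · rintro ⟨h, l, u⟩ hp
        simp only [coe_filter, mem_filter, mem_product, mem_Icc, mem_range, Set.mem_ofPred_eq] at hp
        obtain ⟨-, rfl⟩ := hp
        simp only [coe_product, Set.mem_prod, mem_coe, Nat.mem_divisors]
        refine ⟨⟨⟨l * u, by ring⟩, by omega⟩, ⟨h * u, by ring⟩, by omega⟩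
      · rintro ⟨h, l, u⟩ hp ⟨h', l', u'⟩ hp' heq
        simp only [coe_filter, mem_filter, mem_product, mem_Icc, mem_range, Set.mem_ofPred_eq] at hp hp'
        simp only [Prod.mk.injEq] at heq
        obtain ⟨rfl, rfl⟩ := heq
        obtain ⟨⟨⟨⟨h1, -⟩, -, -⟩, h5, -⟩, h7⟩ := hp
        have h8 : h * l * u = h * l * u' := by rw [h7, hp'.2]
        have h9 := Nat.eq_of_mul_eq_mul_left (Nat.mul_pos h1 h5) h8
        rw [h9]
    rw [card_product] at h3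
    have h4 := hD w hw.1 hw.2
    calc ((((Icc 1 H ×ˢ (range K ×ˢ range K)).filter
        (fun p => 1 ≤ p.2.1 ∧ 1 ≤ p.2.2)).filter (fun p => p.1 * p.2.1 * p.2.2 = w)).card : ℝ)
        ≤ (w.divisors.card : ℝ) * w.divisors.card := by exact_mod_cast h3
      _ ≤ D * D := mul_le_mul h4 h4 (Nat.cast_nonneg _) hD0
      _ = D ^ 2 := by ring
  refine (sum_le_sum h1).trans ?_
  rw [← mul_sum]
  apply mul_le_mul_of_nonneg_left _ (sq_nonneg D)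
  obtain ⟨n, hn⟩ : ∃ n, n = (6 * (H * K ^ 2)) / Q + 1 := ⟨_, rfl⟩
  rw [← hn]
  have h2 : 6 * (H * K ^ 2) < Q * n := by
    rw [hn]; exact Nat.lt_mul_div_succ _ hQ
  calc ∑ w ∈ Icc 1 (H * K ^ 2), mm Q K (κ * (6 * w))
      = ∑ v ∈ (Icc 1 (H * K ^ 2)).image (fun w => 6 * w), mm Q K (κ * v) := by
        rw [sum_image]
        intro x _ y _ hxy
        simp only at hxy
        omega
    _ ≤ ∑ v ∈ range (Q * n), mm Q K (κ * v) := by
        apply sum_le_sum_of_subset_of_nonneg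
        · intro v hv
          obtain ⟨w, hw, rfl⟩ := mem_image.1 hv
          rw [mem_Icc] at hw
          rw [mem_range]
          omega
        · intro _ _ _
          exact mm_nonneg hQ
    _ = n * ∑ s ∈ range Q, mm Q K s := sum_mm_blocks hQ hκ K n
    _ ≤ n * (K + 2 * Q * (1 + Real.log Q)) :=
        mul_le_mul_of_nonneg_left (sum_mm_le hQ K) (Nat.cast_nonneg n)

theorem triple_all {Q κ : ℕ} (hQ : 0 < Q) (hκ : Nat.Coprime κ Q) (K H : ℕ) {D : ℝ}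
    (hD0 : 0 ≤ D) (hD : ∀ w : ℕ, 1 ≤ w → w ≤ H * K ^ 2 → (w.divisors.card : ℝ) ≤ D) :
    ∑ h ∈ Icc 1 H, ∑ l ∈ range K, ∑ u ∈ range K, mm Q K (κ * (6 * (h * l * u))) ≤
      2 * (H * (K : ℝ) ^ 2) +
      D ^ 2 * ((((6 * (H * K ^ 2)) / Q + 1 : ℕ) : ℝ) * (K + 2 * Q * (1 + Real.log Q))) := by
  have h1 : ∑ h ∈ Icc 1 H, ∑ l ∈ range K, ∑ u ∈ range K, mm Q K (κ * (6 * (h * l * u))) =
      ∑ p ∈ Icc 1 H ×ˢ (range K ×ˢ range K), mm Q K (κ * (6 * (p.1 * p.2.1 * p.2.2))) := by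
    rw [sum_product]
    refine sum_congr rfl fun h _ => ?_
    rw [sum_product]
  rw [h1, ← sum_filter_add_sum_filter_not (Icc 1 H ×ˢ (range K ×ˢ range K))
    (fun p => 1 ≤ p.2.1 ∧ 1 ≤ p.2.2), add_comm]
  apply add_le_add _ (triple_main hQ hκ K H hD0 hD)
  have h2 : ∀ p ∈ (Icc 1 H ×ˢ (range K ×ˢ range K)).filter (fun p => ¬ (1 ≤ p.2.1 ∧ 1 ≤ p.2.2)),
      mm Q K (κ * (6 * (p.1 * p.2.1 * p.2.2))) = K := by
    intro p hp
    have h3 := (mem_filter.1 hp).2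
    have h4 : p.1 * p.2.1 * p.2.2 = 0 := by
      by_cases h5 : p.2.1 = 0
      · rw [h5]; ring
      · have h6 : p.2.2 = 0 := by
          by_contra h7
          exact h3 ⟨by omega, by omega⟩
        rw [h6, mul_zero]
    rw [h4]
    unfold mm
    simp
  rw [sum_congr rfl h2, sum_const, nsmul_eq_mul]
  have h3 : (Icc 1 H ×ˢ (range K ×ˢ range K)).filter (fun p => ¬ (1 ≤ p.2.1 ∧ 1 ≤ p.2.2)) ⊆
      (Icc 1 H ×ˢ (({0} : Finset ℕ) ×ˢ range K)) ∪ (Icc 1 H ×ˢ (range K ×ˢ ({0} : Finset ℕ))) := by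
    rintro ⟨h, l, u⟩ hp
    simp only [mem_filter, mem_product, mem_Icc, mem_range] at hp
    simp only [mem_union, mem_product, mem_Icc, mem_range, mem_singleton]
    omega
  have h4 := (card_le_card h3).trans (card_union_le _ _)
  simp only [card_product, Nat.card_Icc, card_range, card_singleton, Nat.add_sub_cancel, one_mul,
    mul_one] at h4
  have h5 : ((((Icc 1 H ×ˢ (range K ×ˢ range K)).filter
      (fun p => ¬ (1 ≤ p.2.1 ∧ 1 ≤ p.2.2))).card : ℕ) : ℝ) ≤ H * K + H * K := by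
    exact_mod_cast h4
  calc _ ≤ ((H : ℝ) * K + H * K) * K := mul_le_mul_of_nonneg_right h5 (Nat.cast_nonneg K)
    _ = 2 * (H * (K : ℝ) ^ 2) := by ring

theorem stW : StW := by
  intro M ε hε
  obtain ⟨C1, hC1, hdiv⟩ := H353.divisor_bound_real (1 / 3200) (by norm_num)
  obtain ⟨C', hC'⟩ : ∃ C' : ℝ, C' = (C1 * ((M : ℝ) + 1)) ^ 2 * 401 := ⟨_, rfl⟩
  have hM0 : (0 : ℝ) ≤ M := Nat.cast_nonneg M
  have hC'0 : 0 < C' := by rw [hC']; positivity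
  have hev : ∃ N : ℕ, ∀ m : ℕ, N ≤ m →
      8 * ((M : ℝ) + 1) ^ 2 * (2 + 21 * C') / ε ^ 2 ≤ (m : ℝ) ^ (1 / 200 : ℝ) := by
    have h1 : Filter.Tendsto (fun m : ℕ => (m : ℝ) ^ (1 / 200 : ℝ)) Filter.atTop Filter.atTop :=
      (tendsto_rpow_atTop (by norm_num)).comp tendsto_natCast_atTop_atTop
    exact Filter.eventually_atTop.1 (h1.eventually_ge_atTop _)
  obtain ⟨N, hN⟩ := hev
  refine ⟨N + 1, ?_⟩
  intro Q hQN κ hκ K hK1 hK2 a b
  have hQ : 0 < Q := by omega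
  obtain ⟨q, hq⟩ : ∃ q : ℝ, q = Q := ⟨_, rfl⟩
  have hq1 : 1 ≤ q := by rw [hq]; exact_mod_cast hQ
  have hq0 : 0 < q := by linarith
  have hbig := hN Q (by omega)
  rw [← hq] at hK1 hK2 hbig
  obtain ⟨H, hH⟩ : ∃ H, H = HH M Q := ⟨_, rfl⟩
  rw [← hH]
  have hq15 : 1 ≤ q ^ (1 / 5 : ℝ) := Real.one_le_rpow hq1 (by norm_num)
  have hHle : (H : ℝ) ≤ ((M : ℝ) + 1) * q ^ (1 / 5 : ℝ) := by
    have h1 : (H : ℝ) ≤ (M : ℝ) * q ^ (1 / 5 : ℝ) + 1 := by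
      rw [hH, hq]
      unfold HH
      exact (Nat.ceil_lt_add_one (by positivity)).le
    linarith
  have hK0 : 0 < (K : ℝ) := lt_of_lt_of_le (Real.rpow_pos_of_pos hq0 _) hK1
  have hKq : (K : ℝ) ≤ q := by
    refine hK2.trans ?_
    calc q ^ (55 / 100 : ℝ) ≤ q ^ (1 : ℝ) := Real.rpow_le_rpow_of_exponent_le hq1 (by norm_num)
      _ = q := Real.rpow_one q
  -- the divisor function
  obtain ⟨D, hD⟩ : ∃ D : ℝ, D = C1 * (((M : ℝ) + 1) * q ^ (1 / 1600 : ℝ)) := ⟨_, rfl⟩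
  have hD0 : 0 ≤ D := by rw [hD]; positivity
  have hdivD : ∀ w : ℕ, 1 ≤ w → w ≤ H * K ^ 2 → (w.divisors.card : ℝ) ≤ D := by
    intro w hw1 hw2
    refine (hdiv w (by omega)).trans ?_
    rw [hD]
    apply mul_le_mul_of_nonneg_left _ hC1.le
    have h1 : (w : ℝ) ≤ ((M : ℝ) + 1) * q ^ (2 : ℝ) := by
      have h2 : (w : ℝ) ≤ H * (K : ℝ) ^ 2 := by exact_mod_cast hw2
      have h3 : (K : ℝ) ^ 2 ≤ q ^ (11 / 10 : ℝ) := by
        calc (K : ℝ) ^ 2 ≤ (q ^ (55 / 100 : ℝ)) ^ 2 := pow_le_pow_left₀ hK0.le hK2 2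
          _ = q ^ (11 / 10 : ℝ) := by
            rw [← Real.rpow_natCast, ← Real.rpow_mul hq0.le]; norm_num
      calc (w : ℝ) ≤ H * (K : ℝ) ^ 2 := h2
        _ ≤ (((M : ℝ) + 1) * q ^ (1 / 5 : ℝ)) * q ^ (11 / 10 : ℝ) :=
            mul_le_mul hHle h3 (by positivity) (by positivity)
        _ = ((M : ℝ) + 1) * q ^ (13 / 10 : ℝ) := by
            rw [mul_assoc, ← Real.rpow_add hq0]; norm_num
        _ ≤ ((M : ℝ) + 1) * q ^ (2 : ℝ) := by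
            apply mul_le_mul_of_nonneg_left _ (by positivity)
            exact Real.rpow_le_rpow_of_exponent_le hq1 (by norm_num)
    calc (w : ℝ) ^ (1 / 3200 : ℝ) ≤ (((M : ℝ) + 1) * q ^ (2 : ℝ)) ^ (1 / 3200 : ℝ) :=
          Real.rpow_le_rpow (Nat.cast_nonneg w) h1 (by norm_num)
      _ = ((M : ℝ) + 1) ^ (1 / 3200 : ℝ) * q ^ (1 / 1600 : ℝ) := by
          rw [Real.mul_rpow (by positivity) (by positivity), ← Real.rpow_mul hq0.le]
          norm_num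
      _ ≤ ((M : ℝ) + 1) * q ^ (1 / 1600 : ℝ) := by
          apply mul_le_mul_of_nonneg_right _ (by positivity)
          calc ((M : ℝ) + 1) ^ (1 / 3200 : ℝ) ≤ ((M : ℝ) + 1) ^ (1 : ℝ) :=
                Real.rpow_le_rpow_of_exponent_le (by linarith) (by norm_num)
            _ = (M : ℝ) + 1 := Real.rpow_one _
  -- the logarithm
  obtain ⟨L, hL⟩ : ∃ L : ℝ, L = 1 + Real.log q := ⟨_, rfl⟩
  have hL1 : 1 ≤ L := by rw [hL]; have := Real.log_nonneg hq1; linarith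
  have hLle : L ≤ 401 * q ^ (1 / 400 : ℝ) := by
    have h1 := Real.log_le_rpow_div hq0.le (show (0 : ℝ) < 1 / 400 by norm_num)
    have h2 : 1 ≤ q ^ (1 / 400 : ℝ) := Real.one_le_rpow hq1 (by norm_num)
    rw [hL]
    have h3 : q ^ (1 / 400 : ℝ) / (1 / 400) = 400 * q ^ (1 / 400 : ℝ) := by ring
    rw [h3] at h1
    linarith
  have hDL : D ^ 2 * L ≤ C' * q ^ (1 / 200 : ℝ) := by
    have h1 : D ^ 2 = (C1 * ((M : ℝ) + 1)) ^ 2 * q ^ (1 / 800 : ℝ) := by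
      rw [hD]
      have : (q ^ (1 / 1600 : ℝ)) ^ 2 = q ^ (1 / 800 : ℝ) := by
        rw [← Real.rpow_natCast, ← Real.rpow_mul hq0.le]; norm_num
      rw [← this]; ring
    calc D ^ 2 * L ≤ ((C1 * ((M : ℝ) + 1)) ^ 2 * q ^ (1 / 800 : ℝ)) * (401 * q ^ (1 / 400 : ℝ)) := by
          rw [h1]
          exact mul_le_mul_of_nonneg_left hLle (by positivity)
      _ = C' * (q ^ (1 / 800 : ℝ) * q ^ (1 / 400 : ℝ)) := by rw [hC']; ring
      _ = C' * q ^ (3 / 800 : ℝ) := by rw [← Real.rpow_add hq0]; norm_num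
      _ ≤ C' * q ^ (1 / 200 : ℝ) := by
          apply mul_le_mul_of_nonneg_left _ hC'0.le
          exact Real.rpow_le_rpow_of_exponent_le hq1 (by norm_num)
  -- the inner sum
  have hKsq : q ^ (4 / 5 : ℝ) ≤ (K : ℝ) ^ 2 := by
    calc q ^ (4 / 5 : ℝ) ≤ q ^ (82 / 100 : ℝ) :=
          Real.rpow_le_rpow_of_exponent_le hq1 (by norm_num)
      _ = (q ^ (41 / 100 : ℝ)) ^ 2 := by
          rw [← Real.rpow_natCast, ← Real.rpow_mul hq0.le]; norm_num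
      _ ≤ (K : ℝ) ^ 2 := pow_le_pow_left₀ (by positivity) hK1 2
  have hqK : q ≤ q ^ (1 / 5 : ℝ) * (K : ℝ) ^ 2 := by
    calc q = q ^ (1 / 5 : ℝ) * q ^ (4 / 5 : ℝ) := by
          rw [← Real.rpow_add hq0]; norm_num
      _ ≤ q ^ (1 / 5 : ℝ) * (K : ℝ) ^ 2 := mul_le_mul_of_nonneg_left hKsq (by positivity)
  have hHK : (H : ℝ) * (K : ℝ) ^ 2 ≤ ((M : ℝ) + 1) * (q ^ (1 / 5 : ℝ) * (K : ℝ) ^ 2) := by
    calc (H : ℝ) * (K : ℝ) ^ 2 ≤ (((M : ℝ) + 1) * q ^ (1 / 5 : ℝ)) * (K : ℝ) ^ 2 :=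
          mul_le_mul_of_nonneg_right hHle (by positivity)
      _ = _ := by ring
  obtain ⟨Y, hY⟩ : ∃ Y : ℝ, Y = q ^ (1 / 5 : ℝ) * (K : ℝ) ^ 2 := ⟨_, rfl⟩
  rw [← hY] at hqK hHK
  have hY0 : 0 < Y := by rw [hY]; positivity
  have hin := triple_all hQ hκ K H hD0 hdivD
  rw [← hq, ← hL] at hin
  have hdivle : (((6 * (H * K ^ 2)) / Q + 1 : ℕ) : ℝ) * q ≤ 7 * ((M : ℝ) + 1) * Y := by
    have h1 : (((6 * (H * K ^ 2)) / Q : ℕ) : ℝ) * q ≤ 6 * ((H : ℝ) * (K : ℝ) ^ 2) := by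
      rw [hq]
      exact_mod_cast Nat.div_mul_le_self (6 * (H * K ^ 2)) Q
    push_cast
    nlinarith
  have hin2 : (((6 * (H * K ^ 2)) / Q + 1 : ℕ) : ℝ) * (K + 2 * q * L) ≤
      21 * ((M : ℝ) + 1) * Y * L := by
    have h1 : (K : ℝ) + 2 * q * L ≤ 3 * (q * L) := by nlinarith
    calc (((6 * (H * K ^ 2)) / Q + 1 : ℕ) : ℝ) * (K + 2 * q * L)
        ≤ (((6 * (H * K ^ 2)) / Q + 1 : ℕ) : ℝ) * (3 * (q * L)) :=
          mul_le_mul_of_nonneg_left h1 (Nat.cast_nonneg _)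
      _ = 3 * L * ((((6 * (H * K ^ 2)) / Q + 1 : ℕ) : ℝ) * q) := by ring
      _ ≤ 3 * L * (7 * ((M : ℝ) + 1) * Y) := mul_le_mul_of_nonneg_left hdivle (by linarith)
      _ = _ := by ring
  have hin3 : ∑ h ∈ Icc 1 H, ∑ l ∈ range K, ∑ u ∈ range K, mm Q K (κ * (6 * (h * l * u))) ≤
      ((M : ℝ) + 1) * Y * ((2 + 21 * C') * q ^ (1 / 200 : ℝ)) := by
    have h2 : 1 ≤ q ^ (1 / 200 : ℝ) := Real.one_le_rpow hq1 (by norm_num)
    calc _ ≤ 2 * (H * (K : ℝ) ^ 2) +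
        D ^ 2 * ((((6 * (H * K ^ 2)) / Q + 1 : ℕ) : ℝ) * (K + 2 * q * L)) := hin
      _ ≤ 2 * (((M : ℝ) + 1) * Y) + D ^ 2 * (21 * ((M : ℝ) + 1) * Y * L) :=
          add_le_add (by linarith) (mul_le_mul_of_nonneg_left hin2 (sq_nonneg D))
      _ = ((M : ℝ) + 1) * Y * (2 + 21 * (D ^ 2 * L)) := by ring
      _ ≤ ((M : ℝ) + 1) * Y * (2 * q ^ (1 / 200 : ℝ) + 21 * (C' * q ^ (1 / 200 : ℝ))) := by
          apply mul_le_mul_of_nonneg_left _ (by positivity)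
          linarith
      _ = _ := by ring
  have hmain := mean_square hQ κ a b K H
  have hX0 : 0 ≤ ∑ h ∈ Icc 1 H, ‖S h κ Q a b K‖ ^ 2 := sum_nonneg fun _ _ => sq_nonneg _
  have hfin : (∑ h ∈ Icc 1 H, ‖S h κ Q a b K‖ ^ 2) ^ 2 ≤ (ε * (K : ℝ) ^ 2) ^ 2 := by
    have h1 : (H : ℝ) * K ≤ ((M : ℝ) + 1) * q ^ (1 / 5 : ℝ) * K :=
      mul_le_mul_of_nonneg_right hHle hK0.le
    have h2 : 0 ≤ ((M : ℝ) + 1) * Y * ((2 + 21 * C') * q ^ (1 / 200 : ℝ)) := by positivity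
    have h3 : 8 * ((M : ℝ) + 1) ^ 2 * (2 + 21 * C') * q ^ (1 / 200 : ℝ) ≤
        ε ^ 2 * q ^ (1 / 100 : ℝ) := by
      rw [div_le_iff₀ (by positivity)] at hbig
      have h4 : q ^ (1 / 100 : ℝ) = q ^ (1 / 200 : ℝ) * q ^ (1 / 200 : ℝ) := by
        rw [← Real.rpow_add hq0]; norm_num
      have h5 : 0 ≤ q ^ (1 / 200 : ℝ) := by positivity
      calc _ ≤ (q ^ (1 / 200 : ℝ) * ε ^ 2) * q ^ (1 / 200 : ℝ) :=
            mul_le_mul_of_nonneg_right hbig h5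
        _ = _ := by rw [h4]; ring
    have h4 : q ^ (2 / 5 : ℝ) * q ^ (1 / 100 : ℝ) ≤ K := by
      rw [← Real.rpow_add hq0]
      refine le_trans (le_of_eq ?_) hK1
      norm_num
    have h5 : q ^ (2 / 5 : ℝ) = q ^ (1 / 5 : ℝ) * q ^ (1 / 5 : ℝ) := by
      rw [← Real.rpow_add hq0]; norm_num
    calc (∑ h ∈ Icc 1 H, ‖S h κ Q a b K‖ ^ 2) ^ 2
        ≤ 8 * ((H : ℝ) * K) * ∑ h ∈ Icc 1 H, ∑ l ∈ range K, ∑ u ∈ range K,
          mm Q K (κ * (6 * (h * l * u))) := hmain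
      _ ≤ 8 * ((H : ℝ) * K) * (((M : ℝ) + 1) * Y * ((2 + 21 * C') * q ^ (1 / 200 : ℝ))) :=
          mul_le_mul_of_nonneg_left hin3 (by positivity)
      _ ≤ 8 * (((M : ℝ) + 1) * q ^ (1 / 5 : ℝ) * K) *
          (((M : ℝ) + 1) * Y * ((2 + 21 * C') * q ^ (1 / 200 : ℝ))) :=
          mul_le_mul_of_nonneg_right (by linarith) h2
      _ = (8 * ((M : ℝ) + 1) ^ 2 * (2 + 21 * C') * q ^ (1 / 200 : ℝ)) *
          (q ^ (2 / 5 : ℝ) * (K : ℝ) ^ 3) := by rw [hY, h5]; ring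
      _ ≤ (ε ^ 2 * q ^ (1 / 100 : ℝ)) * (q ^ (2 / 5 : ℝ) * (K : ℝ) ^ 3) :=
          mul_le_mul_of_nonneg_right h3 (by positivity)
      _ = ε ^ 2 * (q ^ (2 / 5 : ℝ) * q ^ (1 / 100 : ℝ)) * (K : ℝ) ^ 3 := by ring
      _ ≤ ε ^ 2 * K * (K : ℝ) ^ 3 := by
          apply mul_le_mul_of_nonneg_right _ (by positivity)
          exact mul_le_mul_of_nonneg_left h4 (by positivity)
      _ = (ε * (K : ℝ) ^ 2) ^ 2 := by ring
  exact le_of_sq_le_sq hfin (by positivity)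

end Pool.Agent.R286.CU
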